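import Pool.Agent.H18OZ.Step
import Pool.Agent.H167R2.FKBlock

/-!
# The freezing process

Adapted from `Pool.Agent.H167R2.KLProc` (helper167).
-/

namespace H18OZ

open Finset Real H167BJ H167BK H167KL

variable {I J T : Type*} [Fintype I] [Fintype J]

namespace Sys

variable (P : Sys I J T)

theorem continuous_A (i : I) : Continuous (P.A i) := by
  unfold A; fun_prop

theorem continuous_B (k : ℕ) (F : Finset J) (i : I) : Continuous (P.B k F i) := by
  unfold B
  have := P.continuous_A i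
  fun_prop

theorem continuous_V (k : ℕ) (F : Finset J) (i : I) : Continuous (P.V k F i) := by
  unfold V
  have := P.continuous_B k F i
  fun_prop

theorem isCompact_Fs (F F' : Finset J) (x : J → ℝ) : IsCompact (P.Fs F F' x) := by
  have hK : IsCompact (Set.pi Set.univ (fun _ : J => Set.Icc (-1 : ℝ) 1)) :=
    isCompact_univ_pi fun _ => isCompact_Icc
  refine hK.of_isClosed_subset ?_ ?_
  · have h1 : IsClosed {y : J → ℝ | ∀ j ∉ F', y j = x j} := by
      simp only [Set.ofPred_forall]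
      exact isClosed_iInter fun j => isClosed_iInter fun _ =>
        isClosed_eq (continuous_apply j) continuous_const
    have h2 : IsClosed {y : J → ℝ | ∀ j, |y j| ≤ 1} := by
      simp only [Set.ofPred_forall]
      exact isClosed_iInter fun j => isClosed_le (by fun_prop) continuous_const
    have h3 : IsClosed {y : J → ℝ | ∀ i ∈ P.I0, P.A i y = 0} := by
      simp only [Set.ofPred_forall]
      exact isClosed_iInter fun j => isClosed_iInter fun _ =>
        isClosed_eq (P.continuous_A j) continuous_const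
    have h4 : IsClosed {y : J → ℝ | ∀ i ∈ P.big F, P.A i y = 0} := by
      simp only [Set.ofPred_forall]
      exact isClosed_iInter fun j => isClosed_iInter fun _ =>
        isClosed_eq (P.continuous_A j) continuous_const
    have h5 : IsClosed {y : J → ℝ | ∀ i ∈ P.med F, P.V (P.lev F i) F i y ≤ P.Bd (P.lev F i) i} := by
      simp only [Set.ofPred_forall]
      exact isClosed_iInter fun j => isClosed_iInter fun _ =>
        isClosed_le (P.continuous_V _ _ _) continuous_const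
    exact h1.inter (h2.inter (h3.inter (h4.inter h5)))
  · intro y hy j _
    exact abs_le.mp (hy.2.1 j)

theorem continuous_f (F : Finset J) : Continuous (P.f F) := by
  have h : P.f F = fun y => ∑ τ ∈ P.S, P.wt τ * exp (
      (∑ i ∈ P.med F, P.b τ i (P.lev F i) * (P.w i (P.lev F i) * P.φ (P.lev F i) F i y)
      - P.off F τ)) + ∑ j, (1 - y j ^ 2) := by
    funext y
    unfold f
    simp only [P.Th_eq]
  rw [h]
  have h1 : ∀ i, Continuous (P.φ (P.lev F i) F i) := by
    intro i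
    unfold φ
    have := P.continuous_B (P.lev F i) F i
    fun_prop
  fun_prop

/-- The colour sum of the frozen part, relative to the base point. -/
noncomputable def Bq (F : Finset J) (i : I) (y : J → ℝ) : ℝ :=
  P.A i y - ∑ v ∈ F, P.a i v * (y v - P.x0 v)

theorem abs_sub_le_two {y : J → ℝ} (hy : ∀ j, |y j| ≤ 1) (v : J) : |y v - P.x0 v| ≤ 2 := by
  have h4 := abs_le.mp (hy v)
  have h5 := abs_le.mp (P.hx0 v)
  rw [abs_le]; constructor <;> linarith [h4.1, h4.2, h5.1, h5.2]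

theorem abs_sum_le (F : Finset J) (c : J → ℝ) {y : J → ℝ} (hy : ∀ j, |y j| ≤ 1) :
    |∑ v ∈ F, c v * (y v - P.x0 v)| ≤ 2 * ∑ v ∈ F, |c v| := by
  rw [Finset.mul_sum]
  refine (Finset.abs_sum_le_sum_abs _ _).trans (Finset.sum_le_sum fun v _ => ?_)
  rw [abs_mul]
  have h3 := P.abs_sub_le_two hy v
  have h5 : 0 ≤ |c v| := abs_nonneg _
  nlinarith [abs_nonneg (y v - P.x0 v)]

/-- The frozen part is controlled by `V`. -/
theorem Bq_le (k : ℕ) (F : Finset J) (i : I) {y : J → ℝ} (hy : ∀ j, |y j| ≤ 1) :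
    |P.Bq F i y| + 2 * P.mass F i ≤ P.V k F i y + 4 * (P.mass F i - P.dr k F i) := by
  have h1 : P.Bq F i y = P.B k F i y - ∑ v ∈ F, P.sm k i v * (y v - P.x0 v) := by
    unfold Bq B
    rw [sub_sub, ← Finset.sum_add_distrib]
    congr 1
    exact Finset.sum_congr rfl fun v _ => by ring
  have h2 := P.abs_sum_le F (P.sm k i) hy
  have h3 : ∑ v ∈ F, |P.sm k i v| = P.mass F i - P.dr k F i := by
    unfold mass dr
    rw [← Finset.sum_sub_distrib]
    refine Finset.sum_congr rfl fun v _ => ?_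
    unfold sm
    split_ifs <;> simp
  rw [h3] at h2
  have h4 : |P.Bq F i y| ≤ |P.B k F i y| + 2 * (P.mass F i - P.dr k F i) := by
    rw [h1]
    exact (abs_sub _ _).trans (by linarith)
  unfold V
  linarith

theorem dr_L (F : Finset J) (i : I) : P.dr P.L F i = P.mass F i := by
  unfold dr mass
  refine Finset.sum_congr rfl fun v _ => ?_
  unfold sm
  by_cases h : P.a i v = 0
  · rw [h]; simp
  · have := P.hL i v h
    rw [if_neg (not_le.mpr this), sub_zero]

theorem sml_cases {F : Finset J} {i : I} (hi : i ∈ P.I1) (h1 : i ∉ P.big F) (h2 : i ∉ P.med F) :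
    P.mass F i ≤ P.g0 ∨ (P.En F i ≤ P.e 0 ∧ P.lev F i = P.L) := by
  rcases le_or_gt (P.mass F i) P.g0 with h | h
  · exact Or.inl h
  · right
    have h3 : P.En F i ≤ P.e 0 := by
      by_contra hcon
      push Not at hcon
      exact h1 (P.mem_big.mpr ⟨hi, h, hcon⟩)
    refine ⟨h3, ?_⟩
    by_contra hcon
    have := P.lev_le_L F i
    exact h2 (P.mem_med.mpr ⟨hi, h, h3, by omega⟩)

theorem sml_mono {F F' : Finset J} (h : F' ⊆ F) {i : I} (h1 : i ∉ P.big F) (h2 : i ∉ P.med F) :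
    i ∉ P.big F' ∧ i ∉ P.med F' := by
  have hmono := P.mass_mono h i
  have hEmono := P.En_mono h i
  have hlmono := P.lev_mono h i
  constructor
  · intro h
    obtain ⟨h1', h2', h3⟩ := P.mem_big.mp h
    exact h1 (P.mem_big.mpr ⟨h1', h2'.trans_le hmono, h3.trans_le hEmono⟩)
  · intro h
    obtain ⟨h1', h2', h3, h4⟩ := P.mem_med.mp h
    apply h2
    rw [P.mem_med]
    refine ⟨h1', h2'.trans_le hmono, ?_, lt_of_le_of_lt hlmono h4⟩
    by_contra hcon
    push Not at hcon
    exact h1 (P.mem_big.mpr ⟨h1', h2'.trans_le hmono, hcon⟩)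

theorem half_nonneg (i : I) (k : ℕ) : 0 ≤ P.Rb i k := P.hRb i k

theorem sml_of_V {F : Finset J} {i : I} (hi : i ∈ P.I1) (h1 : i ∉ P.big F) (h2 : i ∉ P.med F)
    {y : J → ℝ} (hy : ∀ j, |y j| ≤ 1) {k : ℕ} (hk : k < P.L)
    (hV : P.V k F i y ≤ P.Bd k i) :
    |P.Bq F i y| + 2 * P.mass F i ≤ P.Bd P.L i + 4 * P.g0 := by
  have hg := P.hg0
  rcases P.sml_cases hi h1 h2 with h | ⟨h, h'⟩
  · have h3 := P.Bq_le k F i hy
    have h4 := P.dr_nonneg k F i
    have h5 := P.Bd_mono hk.le i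
    linarith
  · have h3 := P.reset_lt hy hV P.L hk h'.ge
    have h4 := P.Bq_le P.L F i hy
    rw [P.dr_L] at h4
    have h5 := P.half_nonneg i P.L
    linarith

theorem sml_of_zero {F : Finset J} {i : I} (hi : i ∈ P.I1) (h1 : i ∉ P.big F) (h2 : i ∉ P.med F)
    {y : J → ℝ} (hy : ∀ j, |y j| ≤ 1) (hA : P.A i y = 0) :
    |P.Bq F i y| + 2 * P.mass F i ≤ P.Bd P.L i + 4 * P.g0 := by
  have hg := P.hg0
  have hB := P.Bd_nonneg (P.hl0L i hi)
  rcases P.sml_cases hi h1 h2 with h | ⟨h, h'⟩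
  · have h3 := P.abs_sum_le F (P.a i) hy
    have h4 : |P.Bq F i y| ≤ 2 * P.mass F i := by
      unfold Bq mass
      rw [hA, zero_sub, abs_neg]
      exact h3
    linarith
  · have h3 := P.reset_zero hy hA (P.En_le_l0 hi h) P.L (P.hl0L i hi) h'.ge
    have h4 := P.Bq_le P.L F i hy
    rw [P.dr_L] at h4
    have h5 := P.half_nonneg i P.L
    linarith

/-- The invariant of the process. -/
structure Inv (x : J → ℝ) : Prop where
  box : ∀ j, |x j| ≤ 1
  froz : ∀ j, |P.x0 j| = 1 → x j = P.x0 j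
  zero : ∀ i ∈ P.I0, P.A i x = 0
  bigz : ∀ i ∈ P.big (H167FK.Sys.alive x), P.A i x = 0
  medb : ∀ i ∈ P.med (H167FK.Sys.alive x),
    P.V (P.lev (H167FK.Sys.alive x) i) (H167FK.Sys.alive x) i x
      ≤ P.Bd (P.lev (H167FK.Sys.alive x) i) i
  smlb : ∀ i ∈ P.I1, i ∉ P.big (H167FK.Sys.alive x) → i ∉ P.med (H167FK.Sys.alive x) →
    |P.Bq (H167FK.Sys.alive x) i x| + 2 * P.mass (H167FK.Sys.alive x) i
      ≤ P.Bd P.L i + 4 * P.g0
  pot : P.f (H167FK.Sys.alive x) x ≤ 2 * P.N

theorem Inv.alive_sub {P : Sys I J T} {x : J → ℝ} (hx : P.Inv x) :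
    H167FK.Sys.alive x ⊆ H167FK.Sys.alive P.x0 := by
  classical
  intro j hj
  by_contra hcon
  have h1 := H167FK.Sys.abs_eq_one P.hx0 hcon
  have h2 := hx.froz j h1
  unfold H167FK.Sys.alive at hj
  rw [Finset.mem_filter, h2, h1] at hj
  exact lt_irrefl _ hj.2

theorem Bq_change {F F' : Finset J} (h : F' ⊆ F) (i : I) {x y : J → ℝ} (hy : ∀ j, |y j| ≤ 1)
    (hxy : ∀ j ∉ F, y j = x j) :
    |P.Bq F' i y| + 2 * P.mass F' i ≤ |P.Bq F i x| + 2 * P.mass F i := by
  classical
  have h1 : P.Bq F i y = P.Bq F i x := by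
    have h2 : ∀ z : J → ℝ, P.Bq F i z = ∑ v ∈ Finset.univ \ F, P.a i v * (z v - P.x0 v) := by
      intro z
      unfold Bq A
      rw [← Finset.sum_sdiff (Finset.subset_univ F)]
      ring
    rw [h2, h2]
    refine Finset.sum_congr rfl fun v hv => ?_
    rw [hxy v (Finset.mem_sdiff.mp hv).2]
  have h2 : P.Bq F' i y = P.Bq F i y + ∑ v ∈ F \ F', P.a i v * (y v - P.x0 v) := by
    unfold Bq
    rw [← Finset.sum_sdiff h]
    ring
  have h3 := P.abs_sum_le (F \ F') (P.a i) hy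
  have h4 : P.mass F i = ∑ v ∈ F \ F', |P.a i v| + P.mass F' i := by
    unfold mass
    rw [← Finset.sum_sdiff h]
  rw [h2, h1, h4]
  have h5 := abs_add_le (P.Bq F i x) (∑ v ∈ F \ F', P.a i v * (y v - P.x0 v))
  linarith

/-- One step of the process on a closed set `F'` of alive elements. -/
theorem step (x : J → ℝ) (hx : P.Inv x) (F' : Finset J) (hn : 0 < F'.card)
    (hF'A : F' ⊆ H167FK.Sys.alive x)
    (hcl : ∀ i, P.g0 < P.mass (H167FK.Sys.alive x) i → (∃ v ∈ F', P.a i v ≠ 0) →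
      ∀ v ∈ H167FK.Sys.alive x, P.a i v ≠ 0 → v ∈ F')
    (hI0 : 20 * (P.I0.card : ℝ) ≤ F'.card)
    (hgood : ∀ y : J → ℝ, (∀ j, |y j| ≤ 1) → P.f (H167FK.Sys.alive x) y ≤ 2 * P.N →
      100 * ∑ i ∈ P.R (H167FK.Sys.alive x) F', P.W (H167FK.Sys.alive x) y i
        / P.Yl i (P.lev (H167FK.Sys.alive x) i) ≤ 2 * (F'.card : ℝ) ∧
      ∀ Tt : Finset I, (∀ i ∈ Tt, i ∈ P.R (H167FK.Sys.alive x) F' ∧
        P.V (P.lev (H167FK.Sys.alive x) i) (H167FK.Sys.alive x) i y
          = P.Bd (P.lev (H167FK.Sys.alive x) i) i) → 20 * (Tt.card : ℝ) ≤ F'.card)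
    (hW : ∀ i ∈ P.R (H167FK.Sys.alive x) F', ∃ τ ∈ P.S,
      0 < P.b τ i (P.lev (H167FK.Sys.alive x) i)) :
    ∃ y : J → ℝ, P.Inv y ∧ (H167FK.Sys.alive y).card < (H167FK.Sys.alive x).card := by
  classical
  set A : Finset J := H167FK.Sys.alive x with hA
  have hxA : ∀ j, j ∉ A → |x j| = 1 := fun j hj => H167FK.Sys.abs_eq_one hx.box hj
  have hxF : x ∈ P.Fs A F' x := ⟨fun j _ => rfl, hx.box, hx.zero, hx.bigz, hx.medb⟩
  obtain ⟨y, hyF, hymin⟩ := (P.isCompact_Fs A F' x).exists_isMinOn ⟨x, hxF⟩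
    (P.continuous_f A).continuousOn
  have hfy : P.f A y ≤ P.f A x := hymin hxF
  have hfy2 : P.f A y ≤ 2 * P.N := hfy.trans hx.pot
  -- some coordinate gets frozen
  have hfrozen : ∃ j ∈ F', |y j| = 1 := by
    by_contra hcon
    push Not at hcon
    have hlt : ∀ j ∈ F', |y j| < 1 := fun j hj => lt_of_le_of_ne (hyF.2.1 j) (hcon j hj)
    obtain ⟨hg1, hg2⟩ := hgood y hyF.2.1 hfy2
    exact P.no_min A F' x y hyF hlt hn hF'A hcl hI0 hg1
      (hg2 _ (fun i hi => Finset.mem_filter.mp hi)) hW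
      (fun z hz => hymin hz)
  have hyA : ∀ j ∉ A, |y j| = 1 := fun j hj => by
    rw [hyF.1 j (fun h => hj (hF'A h))]; exact hxA j hj
  have hsub : H167FK.Sys.alive y ⊆ A := by
    intro j hj
    by_contra hjA
    unfold H167FK.Sys.alive at hj
    rw [Finset.mem_filter] at hj
    have := hyA j hjA
    linarith [hj.2]
  have hy1 : ∀ j ∉ H167FK.Sys.alive y, |y j| = 1 := fun j hj => H167FK.Sys.abs_eq_one hyF.2.1 hj
  set A' : Finset J := H167FK.Sys.alive y with hA'
  have hxy : ∀ j ∉ A, y j = x j := fun j hj => hyF.1 j (fun h => hj (hF'A h))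
  have hbig1 := hyF.2.2.2.1
  have hmed1 := hyF.2.2.2.2
  have hbigsub : ∀ i ∈ P.big A', i ∈ P.big A := by
    intro i hi
    obtain ⟨h1, h2, h3⟩ := P.mem_big.mp hi
    exact P.mem_big.mpr ⟨h1, h2.trans_le (P.mass_mono hsub i), h3.trans_le (P.En_mono hsub i)⟩
  refine ⟨y, ⟨hyF.2.1, ?_, hyF.2.2.1, fun i hi => hbig1 i (hbigsub i hi), ?_, ?_, ?_⟩, ?_⟩
  · intro j hj
    have h1 := hx.froz j hj
    have h2 : j ∉ A := by
      rw [hA]
      unfold H167FK.Sys.alive
      rw [Finset.mem_filter, h1, hj]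
      simp
    rw [hxy j h2, h1]
  · -- medium rows
    intro i hi
    rw [← hA'] at hi ⊢
    obtain ⟨hi1, hi2, hi3, hi4⟩ := P.mem_med.mp hi
    by_cases hb : i ∈ P.big A
    · have h1 := P.reset_zero hyF.2.1 (hbig1 i hb) (P.En_le_l0 hi1 hi3) (P.lev A' i)
        (P.l0_le_lev hi1 hi3) le_rfl
      have h2 := P.half_nonneg i (P.lev A' i)
      linarith
    · by_cases hm : i ∈ P.med A
      · have h1 := (P.V_shrink (P.lev A i) hsub i hyF.2.1).trans (hmed1 i hm)
        rcases (P.lev_mono hsub i).eq_or_lt with h | h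
        · rw [← h]; exact h1
        · have h2 := P.reset_lt hyF.2.1 h1 (P.lev A' i) h le_rfl
          have h3 := P.half_nonneg i (P.lev A' i)
          linarith
      · exact absurd hi (P.sml_mono hsub hb hm).2
  · -- small rows
    intro i hi1 hib him
    rw [← hA'] at him hib ⊢
    by_cases hb : i ∈ P.big A
    · exact P.sml_of_zero hi1 hib him hyF.2.1 (hbig1 i hb)
    · by_cases hm : i ∈ P.med A
      · have h1 := (P.V_shrink (P.lev A i) hsub i hyF.2.1).trans (hmed1 i hm)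
        exact P.sml_of_V hi1 hib him hyF.2.1 (P.mem_med.mp hm).2.2.2 h1
      · exact (P.Bq_change hsub i hyF.2.1 hxy).trans (hx.smlb i hi1 hb hm)
  · -- potential
    refine le_trans ?_ hfy2
    unfold f
    rw [← hA']
    have h1 : ∑ τ ∈ P.S, P.wt τ * exp (P.Th A' τ y) ≤ ∑ τ ∈ P.S, P.wt τ * exp (P.Th A τ y) := by
      refine Finset.sum_le_sum fun τ hτ => mul_le_mul_of_nonneg_left ?_ (P.hwt τ hτ).le
      apply exp_le_exp.mpr
      unfold Th
      refine Finset.sum_le_sum fun i _ => Finset.sum_le_sum fun l _ =>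
        mul_le_mul_of_nonneg_left ?_ (P.hb0 τ hτ i l)
      exact P.th_mono hsub i l hyF.2.1 hy1 (fun h => hbig1 i h) (fun h => hmed1 i h)
    linarith
  · obtain ⟨j, hjA, hj1⟩ := hfrozen
    apply Finset.card_lt_card
    refine ⟨hsub, fun hcon => ?_⟩
    have := hcon (hF'A hjA)
    unfold H167FK.Sys.alive at this
    rw [Finset.mem_filter] at this
    linarith [this.2]

theorem inv_base : P.Inv P.x0 := by
  classical
  have hA : ∀ i, P.A i P.x0 = 0 := fun i => by unfold A; simp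
  have hfr : ∀ j ∉ H167FK.Sys.alive P.x0, |P.x0 j| = 1 :=
    fun j hj => H167FK.Sys.abs_eq_one P.hx0 hj
  refine ⟨P.hx0, fun j _ => rfl, fun i _ => hA i, fun i _ => hA i, fun i hi => ?_,
    fun i hi hb hm => P.sml_of_zero hi hb hm P.hx0 (hA i), ?_⟩
  · obtain ⟨hi1, hi2, hi3, hi4⟩ := P.mem_med.mp hi
    have h1 := P.reset_zero P.hx0 (hA i) (P.En_le_l0 hi1 hi3) _ (P.l0_le_lev hi1 hi3) le_rfl
    have h2 := P.half_nonneg i (P.lev (H167FK.Sys.alive P.x0) i)
    linarith
  · unfold f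
    have h1 : ∑ τ ∈ P.S, P.wt τ * exp (P.Th (H167FK.Sys.alive P.x0) τ P.x0)
        ≤ ∑ τ ∈ P.S, P.wt τ := by
      refine Finset.sum_le_sum fun τ hτ => ?_
      have h2 : exp (P.Th (H167FK.Sys.alive P.x0) τ P.x0) ≤ 1 := by
        rw [Real.exp_le_one_iff]
        unfold Th
        refine Finset.sum_nonpos fun i _ => Finset.sum_nonpos fun l _ =>
          mul_nonpos_of_nonneg_of_nonpos (P.hb0 τ hτ i l) (P.th_base _ i l hfr)
      have := mul_le_mul_of_nonneg_left h2 (P.hwt τ hτ).le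
      linarith
    have h2 : ∑ j, (1 - P.x0 j ^ 2) ≤ ((H167FK.Sys.alive P.x0).card : ℝ) := by
      have h3 : ∑ j, (1 - P.x0 j ^ 2) = ∑ j ∈ H167FK.Sys.alive P.x0, (1 - P.x0 j ^ 2) := by
        symm
        refine Finset.sum_subset (Finset.subset_univ _) fun j _ hj => ?_
        have h4 : P.x0 j ^ 2 = 1 := by rw [← sq_abs, hfr j hj]; norm_num
        rw [h4]; ring
      rw [h3]
      calc ∑ j ∈ H167FK.Sys.alive P.x0, (1 - P.x0 j ^ 2)
          ≤ ∑ j ∈ H167FK.Sys.alive P.x0, (1 : ℝ) :=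
            Finset.sum_le_sum fun j _ => by linarith [sq_nonneg (P.x0 j)]
        _ = _ := by simp
    have h3 := P.hN
    have h4 := P.hwtN
    linarith

/-- Row sums of extensions. -/
theorem Inv.rows {P : Sys I J T} {x : J → ℝ} (hx : P.Inv x) {i : I} (hi : i ∈ P.I1) :
    |P.A i x| ≤ P.Bd P.L i ∨ ∀ z : J → ℝ, (∀ j, |z j| ≤ 1) → (∀ j, |x j| = 1 → z j = x j) →
      |P.A i z| ≤ P.Bd P.L i + 4 * P.g0 := by
  classical
  set F := H167FK.Sys.alive x with hF
  have hB := P.Bd_nonneg (P.hl0L i hi)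
  by_cases hb : i ∈ P.big F
  · left
    rw [hx.bigz i hb, abs_zero]; exact hB
  · by_cases hm : i ∈ P.med F
    · left
      have h1 := hx.medb i hm
      rw [← hF] at h1
      have h2 := P.Bd_mono (P.lev_le_L F i) i
      have h3 : |P.A i x| ≤ P.V (P.lev F i) F i x := by
        have h4 : P.A i x = P.B (P.lev F i) F i x
            + ∑ v ∈ F, (P.a i v - P.sm (P.lev F i) i v) * (x v - P.x0 v) := by
          unfold B; ring
        have h5 := P.abs_sum_le F (fun v => P.a i v - P.sm (P.lev F i) i v) hx.box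
        rw [h4]
        unfold V dr
        exact (abs_add_le _ _).trans (add_le_add le_rfl h5)
      linarith
    · right
      intro z hz hzx
      have h1 := hx.smlb i hi hb hm
      rw [← hF] at h1
      have h2 := P.Bq_change (Finset.Subset.refl F) i hz (x := x)
        (fun j hj => hzx j (H167FK.Sys.abs_eq_one hx.box hj))
      have h3 : |P.A i z| ≤ |P.Bq F i z| + 2 * P.mass F i := by
        have h4 : P.A i z = P.Bq F i z + ∑ v ∈ F, P.a i v * (z v - P.x0 v) := by
          unfold Bq; ring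
        have h5 := P.abs_sum_le F (P.a i) hz
        rw [h4]
        exact (abs_add_le _ _).trans (add_le_add le_rfl h5)
      linarith

theorem Inv.rows' {P : Sys I J T} {x : J → ℝ} (hx : P.Inv x) {i : I} (hi : i ∈ P.I1) :
    |P.A i x| ≤ P.Bd P.L i + 4 * P.g0 := by
  rcases hx.rows hi with h | h
  · have := P.hg0
    linarith
  · exact h x hx.box (fun _ _ => rfl)

end Sys

end H18OZ
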