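import Pool.Agent.H18OZ.Par
import Pool.Agent.H18OZ.Proc

/-!
# The block lemma for Orlicz energies

Adapted from `Pool.Agent.H86.KB.BlkX` (helper86) and `Pool.Agent.H167R2.KLBlk` (helper167).
-/

namespace H18OZ

open Finset Real H167BJ H167BK

variable {I J : Type*} [Fintype I] [Fintype J]

/-- Block data. -/
structure Blk (I J : Type*) [Fintype I] [Fintype J] where
  a : I → J → ℝ
  c : I → J → ℝ
  I0 : Finset I
  t : I → ℝ
  M : ℝ
  hM : 1 ≤ M
  a1 : ∀ i j, |a i j| ≤ 1
  c0 : ∀ i j, 0 ≤ c i j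
  ca : ∀ i j, a i j = 0 → c i j = 0
  cp : ∀ i j, a i j ≠ 0 → 0 < c i j
  col : ∀ j, ∑ i, c i j ≤ 1
  x0 : J → ℝ
  hx0 : ∀ j, |x0 j| ≤ 1
  R : ∀ i, Pr (t i) (Real.sqrt (960 * M))
  hc1 : ∀ i k j, |a i j| ≤ (R i).θ k → c i j * t i ≤ (R i).ψ k
  hc2 : ∀ i k j, |a i j| ≤ (R i).θ k → a i j ^ 2 * (R i).ψ k ≤ (R i).θ k ^ 2 * (c i j * t i)
  hc3 : ∀ i k j, (R i).θ k < |a i j| → |a i j| * (R i).ψ k ≤ (R i).θ k * (c i j * t i)

namespace Blk

variable (Q : Blk I J)

/-- The parameter `h`. -/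
noncomputable def h : ℝ := Real.sqrt (960 * Q.M)

theorem h_sq : Q.h ^ 2 = 960 * Q.M := Real.sq_sqrt (by linarith [Q.hM])

theorem h_ge : 30 ≤ Q.h := by
  unfold h
  apply Real.le_sqrt_of_sq_le
  linarith [Q.hM]

theorem t_pos (i : I) : 0 < Q.t i := by linarith [(Q.R i).ht]

theorem exists_L : ∃ L : ℕ, ∀ i v, Q.a i v ≠ 0 → (Q.R i).θ L < |Q.a i v| := by
  classical
  have h1 : ∀ i v, ∃ L : ℕ, Q.a i v ≠ 0 → (Q.R i).θ L < |Q.a i v| := by
    intro i v
    by_cases h : Q.a i v = 0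
    · exact ⟨0, fun h' => absurd h h'⟩
    · have h2 : 0 < |Q.a i v| := abs_pos.mpr h
      obtain ⟨n, hn⟩ := (Q.R i).exists_lt _ h2
      exact ⟨n, fun _ => hn⟩
  choose Lf hLf using h1
  refine ⟨∑ i, ∑ v, Lf i v, fun i v h => ?_⟩
  refine lt_of_le_of_lt ((Q.R i).anti ?_) (hLf i v h)
  have h2 := Finset.single_le_sum (f := fun v => Lf i v) (fun i _ => Nat.zero_le _)
    (Finset.mem_univ v)
  have h3 := Finset.single_le_sum (f := fun i => ∑ v, Lf i v) (fun i _ => Nat.zero_le _)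
    (Finset.mem_univ i)
  omega

noncomputable def L : ℕ := Q.exists_L.choose

open Classical in
/-- The system of a block. -/
noncomputable def sys : Sys I J J where
  a := Q.a
  c := Q.c
  c0 := Q.c0
  ca := Q.ca
  I0 := Q.I0
  I1 := Finset.univ
  t := 1
  g0 := 0
  ht := one_pos
  hg0 := le_rfl
  cap := fun _ => 1
  a1 := Q.a1
  col := Q.col
  x0 := Q.x0
  hx0 := Q.hx0
  θ := fun i => (Q.R i).θ
  D := fun i => (Q.R i).d
  κ := fun i k => (Q.R i).κ k * Q.t i
  μ := fun i k => (Q.R i).μ k / Q.t i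
  hθ0 := fun i => (Q.R i).θ0
  hκ0 := fun i k => mul_pos ((Q.R i).κ_pos k) (Q.t_pos i)
  hμ0 := fun i k => div_pos ((Q.R i).μ_pos k) (Q.t_pos i)
  hκ := fun i k j h => by
    have h1 := (Q.R i).ψ_pos k
    have h2 := Q.hc2 i k j h
    unfold Pr.κ
    rw [div_mul_eq_mul_div, div_mul_eq_mul_div, le_div_iff₀ h1]
    linarith
  hμ := fun i k j h => by
    have h1 := (Q.R i).θ0 k
    have h2 := Q.t_pos i
    have h3 := Q.hc3 i k j h
    unfold Pr.μ
    rw [div_div, mul_div_assoc', div_le_iff₀ (by positivity)]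
    linarith
  hθa := fun i => (Q.R i).anti
  Yl := fun i => (Q.R i).Y
  hYl := fun i => (Q.R i).Y_ge
  lam := fun i => (Q.R i).l
  hlam := fun i => (Q.R i).l_pos
  Rb := fun i => (Q.R i).r
  hRb := fun i => (Q.R i).r_nonneg
  g := fun k => exp (-Gk k)
  hg0' := fun k => exp_pos _
  hg := fun i k => le_of_eq (by
    rw [← (Q.R i).gap]
    congr 1
    ring)
  hθl := fun i k => by
    have := (Q.R i).lam_small k
    rwa [min_eq_right ((Q.R i).θ1 k)] at this
  hD0 := fun i => (Q.R i).d_nonneg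
  hθD := fun i k => by
    have h2 := Q.t_pos i
    rcases (Q.R i).d_spec k with h | h
    · exact Or.inl h
    · right
      rw [mul_div_assoc', mul_div_assoc', le_div_iff₀ h2]
      linarith
  l0 := fun _ => 0
  hl0 := fun i _ => Or.inl rfl
  L := Q.L
  hl0L := fun _ _ => Nat.zero_le _
  hL := Q.exists_L.choose_spec
  S := Finset.univ
  wt := fun _ => 1
  hwt := fun _ _ => one_pos
  b := fun j i l => (if |Q.a i j| ≤ (Q.R i).θ l then Q.c i j else 0) * Q.t i / (Q.R i).ψ l
  hb0 := by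
    intro j _ i l
    have h1 := (Q.R i).ψ_pos l
    have h2 := Q.c0 i j
    have h3 := Q.t_pos i
    split_ifs <;> positivity
  hb1 := by
    intro j _ i l
    have h1 := (Q.R i).ψ_pos l
    rw [div_le_one h1]
    split_ifs with h
    · exact Q.hc1 i l j h
    · rw [zero_mul]; exact h1.le
  w := fun i => (Q.R i).w
  hw := fun i => (Q.R i).w_pos
  N := Fintype.card J
  hN := by
    exact_mod_cast Finset.card_le_univ _
  hwtN := by simp

theorem b_eq (j : J) (i : I) (l : ℕ) :
    Q.sys.b j i l = Q.sys.cm l i j * Q.t i / (Q.R i).ψ l := by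
  simp only [sys, Sys.cm]

theorem off_small (F : Finset J) (j : J) : Q.sys.off F j ≤ 96 / 10000 * Q.M := by
  have hM := Q.hM
  refine (Q.sys.off_le F (τ := j) (Finset.mem_univ j)).trans ?_
  have h1 : ∀ l ∈ range Q.sys.L, ∑ i, Q.sys.b j i l * (Q.sys.w i l * Q.sys.g l)
      ≤ 96 * Q.M * (1 / 10000 * (1 / 2) ^ (l + 1)) := by
    intro l _
    have h8 : Real.sqrt (960 * Q.M) ^ 2 = 960 * Q.M := Q.h_sq
    have h2 : ∀ i, Q.sys.b j i l * (Q.sys.w i l * Q.sys.g l)
        = (96 * Q.M * ((16 : ℝ) ^ l * exp (-Gk l))) * Q.sys.cm l i j := by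
      intro i
      have hψ := (Q.R i).ψ_pos l
      have ht := Q.t_pos i
      have h4 : Q.sys.w i l = (Q.R i).w l := rfl
      have h4' : Q.sys.g l = exp (-Gk l) := rfl
      rw [Q.b_eq, h4, h4']
      unfold Pr.w ek
      rw [h8]
      field_simp
      ring
    simp only [h2]
    rw [← Finset.mul_sum]
    have h6 := gap_sum l
    have h7 : ∑ i, Q.sys.cm l i j ≤ 1 :=
      (Finset.sum_le_sum fun i _ => Q.sys.cm_le l i j).trans (Q.sys.col j)
    have h9 : 0 ≤ 96 * Q.M * ((16 : ℝ) ^ l * exp (-Gk l)) := by positivity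
    calc 96 * Q.M * ((16 : ℝ) ^ l * exp (-Gk l)) * ∑ i, Q.sys.cm l i j
        ≤ 96 * Q.M * ((16 : ℝ) ^ l * exp (-Gk l)) * 1 := mul_le_mul_of_nonneg_left h7 h9
      _ ≤ _ := by
          rw [mul_one]
          exact mul_le_mul_of_nonneg_left h6 (by positivity)
  refine (Finset.sum_le_sum h1).trans ?_
  rw [← Finset.mul_sum, ← Finset.mul_sum]
  have h2 : ∑ l ∈ range Q.sys.L, (1 / 2 : ℝ) ^ (l + 1) ≤ 1 := by
    have h3 : ∀ m : ℕ, ∑ l ∈ range m, (1 / 2 : ℝ) ^ (l + 1) = 1 - (1 / 2) ^ m := by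
      intro m
      induction m with
      | zero => simp
      | succ m ih => rw [Finset.sum_range_succ, ih, pow_succ]; ring
    rw [h3]
    have : (0 : ℝ) ≤ (1 / 2) ^ Q.sys.L := by positivity
    linarith
  calc 96 * Q.M * (1 / 10000 * ∑ l ∈ range Q.sys.L, (1 / 2 : ℝ) ^ (l + 1))
      ≤ 96 * Q.M * (1 / 10000 * 1) := by
        apply mul_le_mul_of_nonneg_left _ (by positivity)
        exact mul_le_mul_of_nonneg_left h2 (by norm_num)
    _ = _ := by ring

theorem good (F : Finset J) (hn : 2 * (Fintype.card J : ℝ) * exp (-Q.M) ≤ F.card)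
    (y : J → ℝ) (hy : ∀ j, |y j| ≤ 1) (hf : Q.sys.f F y ≤ 2 * Q.sys.N) :
    ∑ i ∈ Q.sys.med F, ek (Q.t i) (Q.sys.lev F i) / (16 * (Q.R i).ψ (Q.sys.lev F i))
      * Q.sys.W F y i ≤ 101 / 100 * Q.M * F.card := by
  have hM := Q.hM
  -- sum of exponents
  have h1 : ∑ j ∈ F, exp (Q.sys.Th F j y) ≤ 2 * (Fintype.card J : ℝ) := by
    have h2 : ∑ j ∈ F, exp (Q.sys.Th F j y) ≤ ∑ j, exp (Q.sys.Th F j y) :=
      Finset.sum_le_sum_of_subset_of_nonneg (Finset.subset_univ _) (fun _ _ _ => (exp_pos _).le)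
    have h3 : 0 ≤ ∑ j, (1 - y j ^ 2) := by
      refine Finset.sum_nonneg fun j _ => ?_
      have := hy j
      have h3 : y j ^ 2 ≤ 1 := by
        rw [← sq_abs]; nlinarith [abs_nonneg (y j)]
      linarith
    have h4 : Q.sys.f F y = ∑ j, exp (Q.sys.Th F j y) + ∑ j, (1 - y j ^ 2) := by
      unfold Sys.f
      simp only [sys, one_mul]
    have h5 : Q.sys.N = Fintype.card J := rfl
    rw [h4, h5] at hf
    linarith
  have h2 : ∑ j ∈ F, Q.sys.Th F j y ≤ Q.M * F.card := by
    have h3 : ∀ j ∈ F, exp Q.M * (1 + Q.sys.Th F j y - Q.M)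
        ≤ exp (Q.sys.Th F j y) := by
      intro j _
      have h4 := Real.add_one_le_exp (Q.sys.Th F j y - Q.M)
      have h5 : exp (Q.sys.Th F j y) = exp Q.M * exp (Q.sys.Th F j y - Q.M) := by
        rw [← exp_add]; congr 1; ring
      rw [h5]
      apply mul_le_mul_of_nonneg_left _ (exp_pos _).le
      linarith
    have h4 := Finset.sum_le_sum h3
    rw [← Finset.mul_sum, Finset.sum_sub_distrib, Finset.sum_add_distrib, Finset.sum_const,
      Finset.sum_const, nsmul_eq_mul, nsmul_eq_mul, mul_one] at h4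
    have h5 : 2 * (Fintype.card J : ℝ) ≤ exp Q.M * F.card := by
      have h6 := mul_le_mul_of_nonneg_left hn (exp_pos Q.M).le
      refine le_trans (le_of_eq ?_) h6
      rw [exp_neg]
      have := (exp_pos Q.M).ne'
      field_simp
    have h6 : exp Q.M * ((F.card : ℝ) + ∑ j ∈ F, Q.sys.Th F j y
        - F.card * Q.M) ≤ exp Q.M * F.card := by linarith
    have h7 := le_of_mul_le_mul_left h6 (exp_pos _)
    linarith
  -- rows
  have h3 : ∑ j ∈ F, ∑ i ∈ Q.sys.med F, Q.sys.b j i (Q.sys.lev F i) * Q.sys.W F y i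
      ≤ 101 / 100 * Q.M * F.card := by
    have h4 : ∑ j ∈ F, ∑ i ∈ Q.sys.med F, Q.sys.b j i (Q.sys.lev F i) * Q.sys.W F y i
        = ∑ j ∈ F, Q.sys.Th F j y + ∑ j ∈ F, Q.sys.off F j := by
      rw [← Finset.sum_add_distrib]
      refine Finset.sum_congr rfl fun j _ => ?_
      rw [Q.sys.Th_eq]
      unfold Sys.W
      ring
    have h5 : ∑ j ∈ F, Q.sys.off F j ≤ 96 / 10000 * Q.M * F.card := by
      have := Finset.sum_le_sum (s := F) fun j _ => Q.off_small F j
      rw [Finset.sum_const, nsmul_eq_mul] at this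
      linarith
    have h6 : 0 ≤ Q.M * (F.card : ℝ) := by positivity
    rw [h4]
    linarith
  refine le_trans ?_ h3
  rw [Finset.sum_comm]
  refine Finset.sum_le_sum fun i hi => ?_
  rw [← Finset.sum_mul]
  apply mul_le_mul_of_nonneg_right _ (Q.sys.W_pos F y i).le
  have h4 := Q.sys.lt_Es (Q.sys.mem_med.mp hi).2.2.2
  have hψ := (Q.R i).ψ_pos (Q.sys.lev F i)
  have hti := Q.t_pos i
  have h5 : ∑ j ∈ F, Q.sys.b j i (Q.sys.lev F i)
      = Q.sys.Es (Q.sys.lev F i) F i * Q.t i / (Q.R i).ψ (Q.sys.lev F i) := by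
    unfold Sys.Es
    rw [Finset.sum_mul, Finset.sum_div]
    exact Finset.sum_congr rfl fun j _ => Q.b_eq j i _
  rw [h5]
  have h6 : Q.sys.e (Q.sys.lev F i + 1) * Q.t i = ek (Q.t i) (Q.sys.lev F i) / 16 := by
    have h7 : Q.sys.e (Q.sys.lev F i + 1) = 10 * 1 / 16 ^ (Q.sys.lev F i + 1) := rfl
    rw [h7]
    unfold ek
    rw [pow_succ]
    field_simp
  rw [← div_div, ← h6]
  exact div_le_div_of_nonneg_right (mul_le_mul_of_nonneg_right h4.le hti.le) hψ.le

/-- The cost. -/
noncomputable def cost (i : I) : ℝ := ∑ k ∈ range (Q.L + 1), (4 * (Q.R i).d k + (Q.R i).r k)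

theorem Bd_eq (i : I) : Q.sys.Bd Q.sys.L i = Q.cost i := by
  unfold Sys.Bd cost Sys.Tp
  have h1 : Q.sys.l0 i = 0 := rfl
  rw [h1, Finset.range_zero, Finset.sum_empty, sub_zero]
  rfl

/-- **Block lemma.** -/
theorem block : ∃ x : J → ℝ, (∀ j, |x j| ≤ 1) ∧ (∀ j, |Q.x0 j| = 1 → x j = Q.x0 j) ∧
    (∀ i ∈ Q.I0, ∑ j, Q.a i j * (x j - Q.x0 j) = 0) ∧
    (∀ i, |∑ j, Q.a i j * (x j - Q.x0 j)| ≤ Q.cost i) ∧
    ((H167FK.Sys.alive x).card : ℝ) ≤ 20 * Q.I0.card
      + 2 * (Fintype.card J : ℝ) * exp (-Q.M) := by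
  classical
  have hM := Q.hM
  have hex : ∃ k : ℕ, ∃ x : J → ℝ, Q.sys.Inv x ∧ (H167FK.Sys.alive x).card = k :=
    ⟨_, _, Q.sys.inv_base, rfl⟩
  obtain ⟨x, hx, hxk⟩ := Nat.find_spec hex
  have hAx : ∀ i, Q.sys.A i x = ∑ j, Q.a i j * (x j - Q.x0 j) := fun i => rfl
  refine ⟨x, hx.box, hx.froz, fun i hi => ?_, fun i => ?_, ?_⟩
  · rw [← hAx]; exact hx.zero i hi
  · rw [← hAx]
    have h1 := hx.rows' (Finset.mem_univ i)
    have h2 : Q.sys.g0 = 0 := rfl
    rw [h2, mul_zero, add_zero, Q.Bd_eq] at h1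
    exact h1
  · by_contra hcon
    push Not at hcon
    set F := H167FK.Sys.alive x with hF
    have hexp : 0 < exp (-Q.M) := exp_pos _
    have hI0n : (0 : ℝ) ≤ Q.I0.card := Nat.cast_nonneg _
    have hJn : (0 : ℝ) ≤ 2 * (Fintype.card J : ℝ) * exp (-Q.M) := by positivity
    have hn : 0 < F.card := by
      have : (0 : ℝ) < F.card := by linarith
      exact_mod_cast this
    have hnR : (0 : ℝ) < F.card := by exact_mod_cast hn
    have hhsq : Real.sqrt (960 * Q.M) ^ 2 = 960 * Q.M := Q.h_sq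
    have hh30 : 30 ≤ Real.sqrt (960 * Q.M) := Q.h_ge
    obtain ⟨y, hy, hyc⟩ := Q.sys.step x hx F hn (Finset.Subset.refl _)
      (fun i _ _ v hv _ => hv) (by
        have : (Q.sys.I0.card : ℝ) = Q.I0.card := rfl
        rw [this]; linarith)
      (by
        intro y hy1 hy2
        have hg := Q.good F (by linarith) y hy1 hy2
        constructor
        · have h1 : ∑ i ∈ Q.sys.R F F, Real.sqrt (960 * Q.M) ^ 2 / 16
                * (Q.sys.W F y i / Q.sys.Yl i (Q.sys.lev F i))
              ≤ ∑ i ∈ Q.sys.med F, ek (Q.t i) (Q.sys.lev F i)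
                / (16 * (Q.R i).ψ (Q.sys.lev F i)) * Q.sys.W F y i := by
            refine (Finset.sum_le_sum_of_subset_of_nonneg (f := fun i =>
              Real.sqrt (960 * Q.M) ^ 2 / 16 * (Q.sys.W F y i / Q.sys.Yl i (Q.sys.lev F i)))
              (Finset.filter_subset _ _) (fun i _ _ => ?_)).trans
              (Finset.sum_le_sum fun i _ => ?_)
            · have h2 := Q.sys.W_pos F y i
              have h3 := Q.sys.Y_pos i (Q.sys.lev F i)
              positivity
            · have h2 := Q.sys.W_pos F y i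
              have h3 : 0 < (Q.R i).w (Q.sys.lev F i) := (Q.R i).w_pos _
              have h4 : (Q.R i).w (Q.sys.lev F i) ≤ Q.sys.Yl i (Q.sys.lev F i) := (Q.R i).w_le_Y _
              have hψ := (Q.R i).ψ_pos (Q.sys.lev F i)
              have he := ek_pos (Q.R i).ht (Q.sys.lev F i)
              have h5 : Q.sys.W F y i / Q.sys.Yl i (Q.sys.lev F i)
                  ≤ Q.sys.W F y i / (Q.R i).w (Q.sys.lev F i) :=
                div_le_div_of_nonneg_left h2.le h3 h4
              calc Real.sqrt (960 * Q.M) ^ 2 / 16 * (Q.sys.W F y i / Q.sys.Yl i (Q.sys.lev F i))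
                  ≤ Real.sqrt (960 * Q.M) ^ 2 / 16 * (Q.sys.W F y i / (Q.R i).w (Q.sys.lev F i)) :=
                    mul_le_mul_of_nonneg_left h5 (by positivity)
                _ = _ := by
                    unfold Pr.w
                    field_simp
          rw [← Finset.mul_sum] at h1
          have h2 := h1.trans hg
          rw [hhsq] at h2
          have h3 : Q.M * (60 * ∑ i ∈ Q.sys.R F F, Q.sys.W F y i / Q.sys.Yl i (Q.sys.lev F i))
              ≤ Q.M * (101 / 100 * F.card) := by linarith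
          have h4 := le_of_mul_le_mul_left h3 (by linarith)
          linarith
        · intro Tt hTt
          have h1 : ∑ i ∈ Tt, 30 * Q.M
              ≤ ∑ i ∈ Q.sys.med F, ek (Q.t i) (Q.sys.lev F i)
                / (16 * (Q.R i).ψ (Q.sys.lev F i)) * Q.sys.W F y i := by
            have hsub : Tt ⊆ Q.sys.med F := fun i hi =>
              Finset.filter_subset _ _ (hTt i hi).1
            refine (Finset.sum_le_sum fun i hi => ?_).trans
              (Finset.sum_le_sum_of_subset_of_nonneg hsub (f := fun i =>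
              ek (Q.t i) (Q.sys.lev F i) / (16 * (Q.R i).ψ (Q.sys.lev F i)) * Q.sys.W F y i)
              (fun i _ _ => ?_))
            · have h2 := Q.sys.tight_le (Q.sys.lev F i) i hy1 (hTt i hi).2
              have h3 : Q.sys.W F y i = (Q.R i).w (Q.sys.lev F i)
                  * Q.sys.φ (Q.sys.lev F i) F i y := rfl
              have hψ := (Q.R i).ψ_pos (Q.sys.lev F i)
              have he := ek_pos (Q.R i).ht (Q.sys.lev F i)
              have h4 : ek (Q.t i) (Q.sys.lev F i) / (16 * (Q.R i).ψ (Q.sys.lev F i))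
                  * (Q.R i).w (Q.sys.lev F i) = 60 * Q.M := by
                unfold Pr.w
                rw [hhsq]
                field_simp
                norm_num
              rw [h3, ← mul_assoc, h4]
              nlinarith
            · have h2 := Q.sys.W_pos F y i
              have hψ := (Q.R i).ψ_pos (Q.sys.lev F i)
              have he := ek_pos (Q.R i).ht (Q.sys.lev F i)
              positivity
          rw [Finset.sum_const, nsmul_eq_mul] at h1
          have h2 := h1.trans hg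
          have h3 : Q.M * (20 * (Tt.card : ℝ)) ≤ Q.M * (F.card : ℝ) := by
            have h4 : 0 ≤ Q.M * (F.card : ℝ) := by positivity
            linarith
          exact le_of_mul_le_mul_left h3 (by positivity))
      (by
        intro i hi
        obtain ⟨v, hv, hv2⟩ := (Finset.mem_filter.mp hi).2
        refine ⟨v, Finset.mem_univ v, ?_⟩
        rw [Q.b_eq]
        have hψ := (Q.R i).ψ_pos (Q.sys.lev F i)
        have hti := Q.t_pos i
        have h1 : 0 < Q.sys.cm (Q.sys.lev F i) i v := by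
          have h2 : Q.sys.sm (Q.sys.lev F i) i v ≠ 0 := hv2
          unfold Sys.sm at h2
          unfold Sys.cm
          split_ifs at h2 ⊢ with h3
          · exact Q.cp i v h2
          · exact absurd rfl h2
        positivity)
    exact Nat.find_min hex (m := (H167FK.Sys.alive y).card) (by rw [← hxk]; exact hyc) ⟨y, hy, rfl⟩

end Blk

end H18OZ
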