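import Pool.Agent.H18OZ.Blk
import Pool.Agent.H167R2.KNLin

/-!
# Signings for vectors in Orlicz balls
-/

namespace H18OZ

open Finset Real

/-- A function on `[0, 1]` between a linear and a quadratic function: `Φ x / x` is nondecreasing and
`Φ x / x ^ 2` is nonincreasing on `(0, 1]`, and `Φ 1 = 1`. -/
structure Orl (Φ : ℝ → ℝ) : Prop where
  zero : Φ 0 = 0
  one : Φ 1 = 1
  lin : ∀ x y, 0 < x → x ≤ y → y ≤ 1 → Φ x * y ≤ Φ y * x
  quad : ∀ x y, 0 < x → x ≤ y → y ≤ 1 → Φ y * x ^ 2 ≤ Φ x * y ^ 2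

namespace Orl

variable {Φ : ℝ → ℝ} (H : Orl Φ)

include H

theorem sq_le {x : ℝ} (h0 : 0 < x) (h1 : x ≤ 1) : x ^ 2 ≤ Φ x := by
  have := H.quad x 1 h0 h1 le_rfl
  rw [H.one] at this
  linarith

theorem le_self {x : ℝ} (h0 : 0 ≤ x) (h1 : x ≤ 1) : Φ x ≤ x := by
  rcases h0.eq_or_lt with h | h
  · rw [← h, H.zero]
  · have := H.lin x 1 h h1 le_rfl
    rw [H.one] at this
    linarith

theorem pos {x : ℝ} (h0 : 0 < x) (h1 : x ≤ 1) : 0 < Φ x :=
  lt_of_lt_of_le (by positivity) (H.sq_le h0 h1)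

theorem nonneg {x : ℝ} (h0 : 0 ≤ x) (h1 : x ≤ 1) : 0 ≤ Φ x := by
  rcases h0.eq_or_lt with h | h
  · rw [← h, H.zero]
  · exact (H.pos h h1).le

theorem lt {x y : ℝ} (h0 : 0 ≤ x) (hxy : x < y) (h1 : y ≤ 1) : Φ x < Φ y := by
  have hy : 0 < y := lt_of_le_of_lt h0 hxy
  have hpy := H.pos hy h1
  rcases h0.eq_or_lt with h | h
  · rw [← h, H.zero]; exact hpy
  · have h2 := H.lin x y h hxy.le h1
    have h3 : Φ y * x < Φ y * y := mul_lt_mul_of_pos_left hxy hpy
    exact lt_of_mul_lt_mul_right (h2.trans_lt h3) hy.le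

theorem le {x y : ℝ} (h0 : 0 ≤ x) (hxy : x ≤ y) (h1 : y ≤ 1) : Φ x ≤ Φ y := by
  rcases hxy.eq_or_lt with h | h
  · rw [h]
  · exact (H.lt h0 h h1).le

theorem lip {x y : ℝ} (h0 : 0 ≤ x) (hxy : x ≤ y) (h1 : y ≤ 1) : Φ y - Φ x ≤ 2 * (y - x) := by
  rcases h0.eq_or_lt with h | h
  · rw [← h, H.zero]
    have := H.le_self (h0.trans hxy) h1
    linarith
  · have hy : 0 < y := h.trans_le hxy
    have h2 := H.quad x y h hxy h1
    have h3 := H.le_self hy.le h1
    have h4 := H.pos hy h1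
    have h5 : (Φ y - Φ x) * y ^ 2 ≤ 2 * (y - x) * y ^ 2 := by
      calc (Φ y - Φ x) * y ^ 2 ≤ Φ y * y ^ 2 - Φ y * x ^ 2 := by linarith
        _ = Φ y * ((y - x) * (y + x)) := by ring
        _ ≤ y * ((y - x) * (y + x)) :=
          mul_le_mul_of_nonneg_right h3 (mul_nonneg (by linarith) (by linarith))
        _ ≤ y * ((y - x) * (2 * y)) := by
          apply mul_le_mul_of_nonneg_left _ hy.le
          exact mul_le_mul_of_nonneg_left (by linarith) (by linarith)
        _ = _ := by ring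
    exact le_of_mul_le_mul_right h5 (by positivity)

theorem cont : ContinuousOn Φ (Set.Icc 0 1) := by
  have h : LipschitzOnWith 2 Φ (Set.Icc 0 1) := by
    apply LipschitzOnWith.of_dist_le_mul
    intro x hx y hy
    rw [Real.dist_eq, Real.dist_eq]
    rcases le_total x y with h | h
    · have h1 := H.lip hx.1 h hy.2
      have h2 := H.le hx.1 h hy.2
      rw [abs_sub_comm, abs_of_nonneg (by linarith), abs_sub_comm, abs_of_nonneg (by linarith)]
      exact_mod_cast h1
    · have h1 := H.lip hy.1 h hx.2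
      have h2 := H.le hy.1 h hx.2
      rw [abs_of_nonneg (by linarith), abs_of_nonneg (by linarith)]
      exact_mod_cast h1
  exact h.continuousOn

theorem surj {s : ℝ} (h0 : 0 < s) (h1 : s ≤ 1) : ∃ x, 0 < x ∧ x ≤ 1 ∧ Φ x = s := by
  have h2 := intermediate_value_Icc (zero_le_one' ℝ) H.cont
  rw [H.zero, H.one] at h2
  obtain ⟨x, hx, hxs⟩ := h2 (Set.mem_Icc.mpr ⟨h0.le, h1⟩)
  refine ⟨x, ?_, hx.2, hxs⟩
  rcases hx.1.eq_or_lt with h | h
  · rw [← h, H.zero] at hxs; linarith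
  · exact h

omit H in
open Classical in
/-- Parameters of a row with the function `Φ` and with entries at most `δ`. -/
theorem exists_pr (H : Orl Φ) {δ h : ℝ} (hδ0 : 0 < δ) (hδ1 : δ ≤ 1) (hh : 30 ≤ h) :
    ∃ R : Pr (1 / Φ δ) h, ∀ k, δ * R.θ k ≤ δ ∧ Φ (δ * R.θ k) = Φ δ * R.ψ k := by
  have hΦ := H.pos hδ0 hδ1
  have hΦ1 : Φ δ ≤ 1 := (H.le_self hδ0.le hδ1).trans hδ1
  have ht : 1 ≤ 1 / Φ δ := by rw [le_div_iff₀ hΦ]; linarith
  let ψ : ℕ → ℝ := fun k => min 1 (qk (1 / Φ δ) h k)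
  have hψ0 : ∀ k, 0 < ψ k := fun k => lt_min one_pos (qk_pos ht hh k)
  have hψ1 : ∀ k, ψ k ≤ 1 := fun k => min_le_left _ _
  have hψa : ∀ k k', k ≤ k' → ψ k' ≤ ψ k := fun k k' hk => min_le_min le_rfl (qk_anti ht hh hk)
  have hex : ∀ k, ∃ x, 0 < x ∧ x ≤ 1 ∧ Φ x = Φ δ * ψ k := fun k =>
    H.surj (mul_pos hΦ (hψ0 k)) (by
      have := mul_le_mul_of_nonneg_left (hψ1 k) hΦ.le
      linarith)
  choose x hx0 hx1 hx using hex
  have hxδ : ∀ k, x k ≤ δ := fun k => by
    by_contra hcon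
    push Not at hcon
    have h1 := H.lt hδ0.le hcon (hx1 k)
    have h2 := mul_le_mul_of_nonneg_left (hψ1 k) hΦ.le
    rw [hx k] at h1
    linarith
  have hxa : ∀ k k', k ≤ k' → x k' ≤ x k := fun k k' hk => by
    by_contra hcon
    push Not at hcon
    have h1 := H.lt (hx0 k).le hcon (hx1 k')
    have h2 := mul_le_mul_of_nonneg_left (hψa k k' hk) hΦ.le
    rw [hx k, hx k'] at h1
    linarith
  have hδx : ∀ k, δ * (x k / δ) = x k := fun k => by field_simp
  refine ⟨⟨ht, hh, fun k => x k / δ, ψ, fun k => div_pos (hx0 k) hδ0, fun k => ?_, ?_,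
    fun k => rfl, fun k hk => ?_, fun k hk => ?_, fun k k' hk => ?_⟩, fun k => ⟨?_, ?_⟩⟩
  · rw [div_le_one hδ0]; exact hxδ k
  · intro k k' hk
    exact div_le_div_of_nonneg_right (hxa k k' hk) hδ0.le
  · have h1 : ψ k = 1 := min_eq_left hk
    have h2 := hx k
    rw [h1, mul_one] at h2
    rw [div_eq_one_iff_eq hδ0.ne']
    refine le_antisymm (hxδ k) ?_
    by_contra hcon
    push Not at hcon
    have := H.lt (hx0 k).le hcon hδ1
    linarith
  · have h1 : x k = δ := by
      have h2 : x k / δ = 1 := hk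
      rwa [div_eq_one_iff_eq hδ0.ne'] at h2
    have h2 := hx k
    rw [h1] at h2
    have h3 : Φ δ * 1 = Φ δ * ψ k := by linarith
    exact (mul_left_cancel₀ hΦ.ne' h3).symm
  · have h1 := H.quad (x k') (x k) (hx0 k') (hxa k k' hk) (hx1 k)
    rw [hx k, hx k'] at h1
    have h2 : Φ δ * (ψ k * x k' ^ 2) ≤ Φ δ * (ψ k' * x k ^ 2) := by linarith
    have h3 := le_of_mul_le_mul_left h2 hΦ
    show (x k' / δ) ^ 2 * ψ k ≤ (x k / δ) ^ 2 * ψ k'
    rw [div_pow, div_pow, div_mul_eq_mul_div, div_mul_eq_mul_div]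
    apply div_le_div_of_nonneg_right _ (by positivity)
    linarith
  · show δ * (x k / δ) ≤ δ
    rw [hδx]; exact hxδ k
  · show Φ (δ * (x k / δ)) = Φ δ * ψ k
    rw [hδx]; exact hx k

end Orl

/-- All fractional coordinates are rounded at once. -/
theorem round {I J : Type*} [Fintype I] [Fintype J] (v : I → J → ℝ) (Φ : I → ℝ → ℝ)
    (H : ∀ i, Orl (Φ i)) (δ : I → ℝ) (hδ0 : ∀ i, 0 < δ i) (hδ1 : ∀ i, δ i ≤ 1)
    (vδ : ∀ i j, |v i j| ≤ δ i) (col : ∀ j, ∑ i, Φ i |v i j| ≤ 1) (x0 : J → ℝ)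
    (hx0 : ∀ j, |x0 j| ≤ 1) (M h : ℝ) (hM : 1 ≤ M) (hh : h = Real.sqrt (960 * M))
    (hJ : 2 * (Fintype.card J : ℝ) * exp (-M) < 1) :
    ∃ x : J → ℝ, (∀ j, |x j| = 1) ∧ (∀ j, |x0 j| = 1 → x j = x0 j) ∧
      (∀ i, ∀ y, 0 < y → y ≤ 1 → 1 ≤ h * Φ i y →
        |∑ j, v i j * (x j - x0 j)| ≤ 800 * h * y) ∧
      (∀ i, |∑ j, v i j * (x j - x0 j)| ≤ δ i * (80 * Real.sqrt (1 / Φ i (δ i))
        + 753 * h * (1 + Real.log (1 / Φ i (δ i))) ^ (3 / 2 : ℝ))) := by
  classical
  subst hh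
  set h := Real.sqrt (960 * M) with hh
  have hh30 : 30 ≤ h := by
    apply Real.le_sqrt_of_sq_le
    linarith
  have hR := fun i => (H i).exists_pr (hδ0 i) (hδ1 i) hh30
  choose R hR1 using hR
  have habs : ∀ i j, |v i j / δ i| = |v i j| / δ i := fun i j => by
    rw [abs_div, abs_of_pos (hδ0 i)]
  have hle1 : ∀ i j, |v i j| ≤ 1 := fun i j => (vδ i j).trans (hδ1 i)
  have hΦδ : ∀ i, 0 < Φ i (δ i) := fun i => (H i).pos (hδ0 i) (hδ1 i)
  -- the block
  let Q : Blk I J := {
    a := fun i j => v i j / δ i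
    c := fun i j => Φ i |v i j|
    I0 := ∅
    t := fun i => 1 / Φ i (δ i)
    M := M
    hM := hM
    a1 := fun i j => by
      rw [habs, div_le_one (hδ0 i)]; exact vδ i j
    c0 := fun i j => (H i).nonneg (abs_nonneg _) (hle1 i j)
    ca := fun i j h => by
      have h1 : v i j = 0 := by
        rcases div_eq_zero_iff.mp h with h | h
        · exact h
        · exact absurd h (hδ0 i).ne'
      rw [h1, abs_zero, (H i).zero]
    cp := fun i j h => by
      have h1 : v i j ≠ 0 := fun h' => h (by rw [h', zero_div])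
      exact (H i).pos (abs_pos.mpr h1) (hle1 i j)
    col := col
    x0 := x0
    hx0 := hx0
    R := R
    hc1 := fun i k j h => by
      rw [habs, div_le_iff₀ (hδ0 i)] at h
      have h1 := (hR1 i k).2
      have h2 := (hR1 i k).1
      have h3 : Φ i |v i j| ≤ Φ i (δ i * (R i).θ k) :=
        (H i).le (abs_nonneg _) (by linarith) (h2.trans (hδ1 i))
      rw [h1] at h3
      rw [mul_one_div, div_le_iff₀ (hΦδ i)]
      linarith
    hc2 := fun i k j h => by
      rw [habs, div_le_iff₀ (hδ0 i)] at h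
      have h1 := (hR1 i k).2
      have h2 := (hR1 i k).1
      have hδ := hδ0 i
      have hΦ := hΦδ i
      by_cases h0 : v i j = 0
      · rw [h0, abs_zero, (H i).zero]
        simp
      · have h3 := (H i).quad |v i j| (δ i * (R i).θ k) (abs_pos.mpr h0) (by linarith)
          (h2.trans (hδ1 i))
        rw [h1, sq_abs] at h3
        rw [mul_one_div, div_pow, div_mul_eq_mul_div, mul_div_assoc',
          div_le_div_iff₀ (by positivity) hΦ]
        nlinarith
    hc3 := fun i k j h => by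
      rw [habs, lt_div_iff₀ (hδ0 i)] at h
      have h1 := (hR1 i k).2
      have hδ := hδ0 i
      have hΦ := hΦδ i
      have hθ := (R i).θ0 k
      have h3 := (H i).lin (δ i * (R i).θ k) |v i j| (by positivity) (by linarith) (hle1 i j)
      rw [h1] at h3
      rw [habs, mul_one_div, div_mul_eq_mul_div, mul_div_assoc', div_le_div_iff₀ hδ hΦ]
      nlinarith }
  obtain ⟨x, hx1, hx2, -, hx3, hx4⟩ := Q.block
  have hQa : ∀ i, ∑ j, v i j * (x j - x0 j) = δ i * ∑ j, Q.a i j * (x j - Q.x0 j) := by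
    intro i
    rw [Finset.mul_sum]
    refine Finset.sum_congr rfl fun j _ => ?_
    show v i j * (x j - x0 j) = δ i * (v i j / δ i * (x j - x0 j))
    have := (hδ0 i).ne'
    field_simp
  have hbd : ∀ i, |∑ j, v i j * (x j - x0 j)| ≤ δ i * Q.cost i := by
    intro i
    rw [hQa, abs_mul, abs_of_pos (hδ0 i)]
    exact mul_le_mul_of_nonneg_left (hx3 i) (hδ0 i).le
  refine ⟨x, ?_, hx2, fun i y hy0 hy1 hy => ?_, fun i => ?_⟩
  · have h1 : (H167FK.Sys.alive x).card = 0 := by
      have h2 : Q.I0.card = 0 := rfl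
      rw [h2] at hx4
      have h3 : ((H167FK.Sys.alive x).card : ℝ) < 1 := by
        refine lt_of_le_of_lt hx4 ?_
        have h4 : Q.M = M := rfl
        rw [h4]
        simpa using hJ
      have h4 : (H167FK.Sys.alive x).card < 1 := by exact_mod_cast h3
      omega
    rw [Finset.card_eq_zero] at h1
    intro j
    apply H167FK.Sys.abs_eq_one hx1
    rw [h1]
    exact Finset.notMem_empty j
  · have hδ := hδ0 i
    have hΦ := hΦδ i
    have hhpos : 0 < h := by linarith
    have h1 : Q.cost i ≤ 800 * h * (y / δ i) := by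
      refine (R i).total' _ (y / δ i) (by positivity) fun k => ?_
      have h2 := (hR1 i k).2
      have h3 := (hR1 i k).1
      have hθ := (R i).θ0 k
      set X := δ i * (R i).θ k with hX
      have hX0 : 0 < X := by positivity
      have hX1 : X ≤ 1 := h3.trans (hδ1 i)
      have hθe : (R i).θ k = X / δ i := by rw [hX]; field_simp
      have hψe : (R i).ψ k = Φ i X / Φ i (δ i) := by rw [h2]; field_simp
      have hXy : X ≤ y := by
        by_contra hcon
        push Not at hcon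
        have h4 := (H i).lt hy0.le hcon hX1
        -- energy of the cutoff is at most 1 / (8 h)
        have h5 := (R i).ψ_mul_le k
        have h6 := Gk_ge k
        have h7 : ek (1 / Φ i (δ i)) k ≤ 10 * (1 / Φ i (δ i)) := by
          unfold ek
          apply div_le_self (by positivity)
          exact one_le_pow₀ (by norm_num)
        have hψ := (R i).ψ_pos k
        have h8 : (R i).ψ k * (8 * h * 10) ≤ 10 * (1 / Φ i (δ i)) := by
          refine le_trans ?_ (h5.trans h7)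
          apply mul_le_mul_of_nonneg_left _ hψ.le
          apply mul_le_mul_of_nonneg_left h6 (by positivity)
        rw [hψe, mul_one_div, div_mul_eq_mul_div] at h8
        have h9 := (div_le_div_iff_of_pos_right hΦ).mp h8
        have h10 : h * Φ i y < h * Φ i X := mul_lt_mul_of_pos_left h4 hhpos
        linarith
      have h4 := (H i).quad X y hX0 hXy hy1
      have h5 : X ^ 2 ≤ h * Φ i X * y ^ 2 := by
        calc X ^ 2 = 1 * X ^ 2 := (one_mul _).symm
          _ ≤ (h * Φ i y) * X ^ 2 := mul_le_mul_of_nonneg_right hy (sq_nonneg X)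
          _ = h * (Φ i y * X ^ 2) := by ring
          _ ≤ h * (Φ i X * y ^ 2) := mul_le_mul_of_nonneg_left h4 hhpos.le
          _ = _ := by ring
      have hΦX := (H i).pos hX0 hX1
      rw [hθe, hψe]
      have e1 : (X / δ i) ^ 2 * (1 / Φ i (δ i)) = X ^ 2 / (δ i ^ 2 * Φ i (δ i)) := by
        field_simp
      have e2 : (y / δ i) ^ 2 * (8 * h * (Φ i X / Φ i (δ i)))
          = (8 * (h * Φ i X * y ^ 2)) / (δ i ^ 2 * Φ i (δ i)) := by
        field_simp
      rw [e1, e2]
      apply div_le_div_of_nonneg_right _ (by positivity)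
      have : 0 ≤ h * Φ i X * y ^ 2 := by positivity
      linarith
    refine (hbd i).trans ?_
    calc δ i * Q.cost i ≤ δ i * (800 * h * (y / δ i)) := mul_le_mul_of_nonneg_left h1 hδ.le
      _ = 800 * h * y := by field_simp
  · refine (hbd i).trans ?_
    exact mul_le_mul_of_nonneg_left ((R i).total _) (hδ0 i).le

/-- The exponent of the number of fractional coordinates after the linear reduction. -/
theorem round_min {d n : ℕ} (v : Fin d → Fin n → ℝ) (Φ : Fin d → ℝ → ℝ)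
    (H : ∀ i, Orl (Φ i)) (δ : Fin d → ℝ) (hδ0 : ∀ i, 0 < δ i) (hδ1 : ∀ i, δ i ≤ 1)
    (vδ : ∀ i j, |v i j| ≤ δ i) (col : ∀ j, ∑ i, Φ i |v i j| ≤ 1) (x0 : Fin n → ℝ)
    (hx0 : ∀ j, |x0 j| ≤ 1) (L : ℝ) (hL : L = 1 + Real.log ((min n d : ℕ) : ℝ)) :
    ∃ x : Fin n → ℝ, (∀ j, |x j| = 1) ∧ (∀ j, |x0 j| = 1 → x j = x0 j) ∧
      (∀ i, ∀ y, 0 < y → y ≤ 1 → 1 ≤ Real.sqrt L * Φ i y →
        |∑ j, v i j * (x j - x0 j)| ≤ 33000 * Real.sqrt L * y) ∧
      (∀ i, |∑ j, v i j * (x j - x0 j)| ≤ 100000 * (δ i / Real.sqrt (Φ i (δ i))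
        + δ i * Real.sqrt L * (1 + Real.log (1 / δ i)) ^ (3 / 2 : ℝ))) := by
  classical
  obtain ⟨x1, hx1a, hx1b, hx1c⟩ := H167KN.reduce v _ x0 hx0 le_rfl
  set F : Finset (Fin n) := H167FK.Sys.alive x1 with hF
  have hcard : F.card ≤ min n d := by
    have h1 : F.card ≤ Fintype.card (Fin n) := Finset.card_le_univ _
    have h2 : F.card ≤ Fintype.card (Fin d) := hx1c
    rw [Fintype.card_fin] at h1 h2
    exact le_min h1 h2
  have hL0 : 0 ≤ Real.log ((min n d : ℕ) : ℝ) := Real.log_natCast_nonneg _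
  have hL1 : 1 ≤ L := by linarith
  set M : ℝ := 7 / 10 + L with hM
  have hM1 : 1 ≤ M := by linarith
  -- the number of columns
  have hJ : 2 * (Fintype.card {j // j ∈ F} : ℝ) * exp (-M) < 1 := by
    rw [Fintype.card_coe]
    rcases Nat.eq_zero_or_pos F.card with h | h
    · rw [h]; simp
    · have h1 : (F.card : ℝ) ≤ ((min n d : ℕ) : ℝ) := by exact_mod_cast hcard
      have h2 : (0 : ℝ) < F.card := by exact_mod_cast h
      have h3 : exp (-M) = exp (-(7 / 10)) * (exp (-1) * (((min n d : ℕ) : ℝ))⁻¹) := by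
        have h4 : exp (Real.log ((min n d : ℕ) : ℝ)) = ((min n d : ℕ) : ℝ) :=
          Real.exp_log (h2.trans_le h1)
        rw [← h4, ← exp_neg, ← exp_add, ← exp_add]
        congr 1
        rw [hM, hL]; ring
      have h5 : exp (-(7 / 10)) * exp (-1) < 1 / 2 := by
        rw [← exp_add]
        have h6 : exp (-(7 / 10) + -1) ≤ exp (-1) := exp_le_exp.mpr (by norm_num)
        have h7 : exp (-1) < 1 / 2 := by
          rw [exp_neg, one_div]
          apply inv_strictAnti₀ (by norm_num)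
          have := Real.exp_one_gt_d9
          linarith
        linarith
      have h6 : 0 < ((min n d : ℕ) : ℝ) := h2.trans_le h1
      rw [h3]
      calc 2 * (F.card : ℝ) * (exp (-(7 / 10)) * (exp (-1) * (((min n d : ℕ) : ℝ))⁻¹))
          = 2 * (exp (-(7 / 10)) * exp (-1)) * ((F.card : ℝ) / ((min n d : ℕ) : ℝ)) := by
            field_simp
        _ ≤ 2 * (exp (-(7 / 10)) * exp (-1)) * 1 := by
            apply mul_le_mul_of_nonneg_left _ (by positivity)
            rw [div_le_one h6]; exact h1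
        _ < 1 := by linarith
  set h : ℝ := Real.sqrt (960 * M) with hh
  obtain ⟨z, hz1, hz2, hz3, hz4⟩ := round (fun i (j : {j // j ∈ F}) => v i j.1) Φ H δ hδ0 hδ1
    (fun i j => vδ i j.1) (fun j => col j.1) (fun j => x1 j.1) (fun j => hx1a.1 j.1) M h hM1 hh hJ
  -- gluing
  set x : Fin n → ℝ := fun j => if hj : j ∈ F then z ⟨j, hj⟩ else x1 j with hx
  have hxF : ∀ j (hj : j ∈ F), x j = z ⟨j, hj⟩ := fun j hj => by simp only [hx, dif_pos hj]
  have hxn : ∀ j, j ∉ F → x j = x1 j := fun j hj => by simp only [hx, dif_neg hj]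
  have hsum : ∀ i, ∑ j, v i j * (x j - x0 j)
      = ∑ j : {j // j ∈ F}, v i j.1 * (z j - x1 j.1) := by
    intro i
    have h1 : ∑ j, v i j * (x j - x0 j) = ∑ j, v i j * (x1 j - x0 j)
        + ∑ j, v i j * (x j - x1 j) := by
      rw [← Finset.sum_add_distrib]
      exact Finset.sum_congr rfl fun j _ => by ring
    rw [h1, hx1b i, zero_add]
    rw [← Finset.sum_subset (Finset.subset_univ F) (fun j _ hj => by
      rw [hxn j hj, sub_self, mul_zero])]
    rw [← Finset.sum_coe_sort]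
    exact Finset.sum_congr rfl fun j _ => by rw [hxF j.1 j.2]
  have hsL : 0 ≤ Real.sqrt L := Real.sqrt_nonneg _
  have hh1 : Real.sqrt L ≤ h := Real.sqrt_le_sqrt (by linarith)
  have hh2 : h ≤ 41 * Real.sqrt L := by
    rw [hh, show (41 : ℝ) = Real.sqrt (41 ^ 2) by rw [Real.sqrt_sq (by norm_num)],
      ← Real.sqrt_mul (by norm_num)]
    apply Real.sqrt_le_sqrt
    rw [hM]
    linarith
  refine ⟨x, fun j => ?_, fun j hj => ?_, fun i y hy0 hy1 hy => ?_, fun i => ?_⟩
  · by_cases hj : j ∈ F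
    · rw [hxF j hj]; exact hz1 _
    · rw [hxn j hj]
      exact H167FK.Sys.abs_eq_one hx1a.1 hj
  · have h1 : x1 j = x0 j := hx1a.2 j hj
    have h2 : j ∉ F := by
      rw [hF]
      unfold H167FK.Sys.alive
      rw [Finset.mem_filter, h1, hj]
      simp
    rw [hxn j h2, h1]
  · have hΦ := (H i).pos hy0 hy1
    have h1 : 1 ≤ h * Φ i y := hy.trans (mul_le_mul_of_nonneg_right hh1 hΦ.le)
    have h2 := hz3 i y hy0 hy1 h1
    rw [hsum i]
    refine h2.trans ?_
    have h3 : 800 * h * y ≤ 800 * (41 * Real.sqrt L) * y := by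
      apply mul_le_mul_of_nonneg_right _ hy0.le
      linarith
    have h4 : 0 ≤ Real.sqrt L * y := by positivity
    linarith
  · rw [hsum i]
    refine (hz4 i).trans ?_
    have hδ := hδ0 i
    have hΦ := (H i).pos (hδ0 i) (hδ1 i)
    have hlog : 0 ≤ Real.log (1 / δ i) := Real.log_nonneg (by
      rw [le_div_iff₀ hδ]; linarith [hδ1 i])
    have hlog2 : 1 + Real.log (1 / Φ i (δ i)) ≤ 2 * (1 + Real.log (1 / δ i)) := by
      have h1 : Real.log (1 / Φ i (δ i)) ≤ Real.log (1 / δ i ^ 2) := by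
        apply Real.log_le_log (by positivity)
        exact one_div_le_one_div_of_le (by positivity) ((H i).sq_le (hδ0 i) (hδ1 i))
      have h2 : Real.log (1 / δ i ^ 2) = 2 * Real.log (1 / δ i) := by
        rw [one_div, one_div, Real.log_inv, Real.log_inv, Real.log_pow]
        push_cast
        ring
      linarith
    have hlog3 : 0 ≤ 1 + Real.log (1 / Φ i (δ i)) := by
      have h1 : 0 ≤ Real.log (1 / Φ i (δ i)) := Real.log_nonneg (by
        rw [le_div_iff₀ hΦ]
        linarith [(H i).le_self (hδ0 i).le (hδ1 i), hδ1 i])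
      linarith
    set ℓ : ℝ := (1 + Real.log (1 / δ i)) ^ (3 / 2 : ℝ) with hℓ
    have hℓ0 : 0 ≤ ℓ := by positivity
    have h1 : (1 + Real.log (1 / Φ i (δ i))) ^ (3 / 2 : ℝ) ≤ 3 * ℓ := by
      calc (1 + Real.log (1 / Φ i (δ i))) ^ (3 / 2 : ℝ)
          ≤ (2 * (1 + Real.log (1 / δ i))) ^ (3 / 2 : ℝ) :=
            Real.rpow_le_rpow hlog3 hlog2 (by norm_num)
        _ = (2 : ℝ) ^ (3 / 2 : ℝ) * ℓ := Real.mul_rpow (by norm_num) (by linarith)
        _ ≤ 3 * ℓ := by
            apply mul_le_mul_of_nonneg_right _ hℓ0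
            have h2 : (2 : ℝ) ^ (3 / 2 : ℝ) = 2 * Real.sqrt 2 := by
              rw [Real.sqrt_eq_rpow, ← Real.rpow_one_add' (by norm_num) (by norm_num)]
              norm_num
            rw [h2]
            have h3 : Real.sqrt 2 ≤ 3 / 2 := by
              rw [Real.sqrt_le_left (by norm_num)]; norm_num
            linarith
    have h2 : δ i * Real.sqrt (1 / Φ i (δ i)) = δ i / Real.sqrt (Φ i (δ i)) := by
      rw [Real.sqrt_div (by norm_num), Real.sqrt_one]; ring
    have h3 : 0 ≤ δ i / Real.sqrt (Φ i (δ i)) := by positivity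
    have h4 : h * (1 + Real.log (1 / Φ i (δ i))) ^ (3 / 2 : ℝ)
        ≤ 41 * Real.sqrt L * (3 * ℓ) :=
      mul_le_mul hh2 h1 (by positivity) (by positivity)
    have h5 : 0 ≤ δ i * Real.sqrt L * ℓ := by positivity
    calc δ i * (80 * Real.sqrt (1 / Φ i (δ i))
          + 753 * h * (1 + Real.log (1 / Φ i (δ i))) ^ (3 / 2 : ℝ))
        = 80 * (δ i * Real.sqrt (1 / Φ i (δ i)))
          + 753 * δ i * (h * (1 + Real.log (1 / Φ i (δ i))) ^ (3 / 2 : ℝ)) := by ring
      _ ≤ 80 * (δ i / Real.sqrt (Φ i (δ i))) + 753 * δ i * (41 * Real.sqrt L * (3 * ℓ)) := by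
          rw [h2]
          have := mul_le_mul_of_nonneg_left h4 (by positivity : 0 ≤ 753 * δ i)
          linarith
      _ ≤ 100000 * (δ i / Real.sqrt (Φ i (δ i)) + δ i * Real.sqrt L * ℓ) := by
          linarith

end H18OZ
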