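import Mathlib

/-!
# Parameters for Orlicz energies

Adapted from `Pool.Agent.H167R2.KLBlock` (helper167).
-/

namespace H18OZ

open Finset Real

/-- Energy scales. -/
noncomputable def ek (t : ℝ) (k : ℕ) : ℝ := 10 * t / 16 ^ k

/-- Gaps. -/
noncomputable def Gk (k : ℕ) : ℝ := 10 + 4 * k

/-- Energy of the uncapped cutoff. -/
noncomputable def qk (t h : ℝ) (k : ℕ) : ℝ := ek t k / (8 * h * Gk k)

/-- Geometric scale. -/
noncomputable def xk (t : ℝ) (k : ℕ) : ℝ := Real.sqrt (ek t k * Gk k)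

section basic

variable {t h : ℝ} (ht : 1 ≤ t) (hh : 30 ≤ h)

theorem Gk_ge (k : ℕ) : 10 ≤ Gk k := by
  unfold Gk
  have : (0 : ℝ) ≤ k := Nat.cast_nonneg k
  linarith

theorem Gk_succ (k : ℕ) : Gk (k + 1) = Gk k + 4 := by
  unfold Gk; push_cast; ring

theorem Gk_mono {k k' : ℕ} (h : k ≤ k') : Gk k ≤ Gk k' := by
  unfold Gk
  have : (k : ℝ) ≤ k' := by exact_mod_cast h
  linarith

include ht in
theorem ek_pos (k : ℕ) : 0 < ek t k := by unfold ek; positivity

include ht in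
theorem ek_anti {k k' : ℕ} (h : k ≤ k') : ek t k' ≤ ek t k := by
  unfold ek
  apply div_le_div_of_nonneg_left (by linarith) (by positivity)
  exact pow_le_pow_right₀ (by norm_num) h

theorem ek_succ (k : ℕ) : ek t (k + 1) = ek t k / 16 := by
  unfold ek
  rw [pow_succ]
  field_simp

include ht hh in
theorem qk_pos (k : ℕ) : 0 < qk t h k := by
  have h1 := ek_pos ht k
  have h2 := Gk_ge k
  unfold qk
  positivity

include ht hh in
theorem qk_anti {k k' : ℕ} (hk : k ≤ k') : qk t h k' ≤ qk t h k := by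
  have h1 := ek_pos ht k
  have h2 := Gk_ge k
  have h3 := Gk_mono hk
  unfold qk
  apply div_le_div₀ h1.le (ek_anti ht hk) (by positivity)
  apply mul_le_mul_of_nonneg_left h3 (by positivity)

include ht hh in
theorem qk_succ (k : ℕ) : qk t h (k + 1) ≤ qk t h k / 16 := by
  have h1 := ek_pos ht k
  have h2 := Gk_ge k
  unfold qk
  rw [ek_succ, div_div, div_div]
  apply div_le_div_of_nonneg_left h1.le (by positivity)
  rw [Gk_succ]
  have : 0 ≤ 16 * (8 * h) * 4 := by positivity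
  linarith

include ht in
theorem xk_succ (k : ℕ) : xk t (k + 1) ≤ xk t k / 2 := by
  have h1 := ek_pos ht k
  have h2 := Gk_ge k
  unfold xk
  have h3 : Real.sqrt (ek t k * Gk k) / 2 = Real.sqrt (ek t k * Gk k / 4) := by
    rw [Real.sqrt_div (by positivity)]
    congr 1
    rw [show (4 : ℝ) = 2 ^ 2 by norm_num, Real.sqrt_sq (by norm_num)]
  rw [h3]
  apply Real.sqrt_le_sqrt
  rw [ek_succ, Gk_succ]
  have h4 : ek t k * (Gk k + 4) ≤ ek t k * (4 * Gk k) :=
    mul_le_mul_of_nonneg_left (by linarith) h1.le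
  linarith

theorem xk_nonneg (k : ℕ) : 0 ≤ xk t k := Real.sqrt_nonneg _

theorem xk_zero : xk t 0 = 10 * Real.sqrt t := by
  unfold xk ek Gk
  simp only [pow_zero, div_one, Nat.cast_zero, mul_zero, add_zero]
  rw [show 10 * t * 10 = 10 ^ 2 * t by ring, Real.sqrt_mul (by norm_num),
    Real.sqrt_sq (by norm_num)]

include ht in
theorem xk_le (k : ℕ) : xk t k ≤ 10 * Real.sqrt t * (1 / 2) ^ k := by
  induction k with
  | zero => rw [xk_zero]; simp
  | succ k ih =>
    have := xk_succ ht k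
    rw [pow_succ]
    linarith

include ht in
/-- Tails of the geometric scale. -/
theorem xk_sum (k1 : ℕ) : ∀ K, k1 ≤ K → ∑ k ∈ Finset.Ico k1 K, xk t k + 2 * xk t K ≤ 2 * xk t k1 := by
  intro K hK
  induction K, hK using Nat.le_induction with
  | base => simp
  | succ K hK ih =>
    rw [Finset.sum_Ico_succ_top hK]
    have := xk_succ ht K
    linarith

/-- The gaps are summable. -/
theorem gap_sum (k : ℕ) : (16 : ℝ) ^ k * exp (-Gk k) ≤ 1 / 10000 * (1 / 2) ^ (k + 1) := by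
  have h10 : exp (-10) ≤ 1 / 20000 := by
    rw [exp_neg, one_div]
    apply inv_anti₀ (by norm_num)
    have h1 : exp 10 = exp 1 ^ 10 := by rw [← exp_nat_mul]; norm_num
    rw [h1]
    have h2 := Real.exp_one_gt_d9
    have h3 : (2.7 : ℝ) ^ 10 ≤ exp 1 ^ 10 := by
      apply pow_le_pow_left₀ (by norm_num); linarith
    refine le_trans ?_ h3
    norm_num
  have h4 : exp (-4) ≤ 1 / 32 := by
    rw [exp_neg, one_div]
    apply inv_anti₀ (by norm_num)
    have h1 : exp 4 = exp 1 ^ 4 := by rw [← exp_nat_mul]; norm_num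
    rw [h1]
    have h2 := Real.exp_one_gt_d9
    have h3 : (2.7 : ℝ) ^ 4 ≤ exp 1 ^ 4 := by
      apply pow_le_pow_left₀ (by norm_num); linarith
    refine le_trans ?_ h3
    norm_num
  have h1 : exp (-Gk k) = exp (-10) * exp (-4) ^ k := by
    rw [← exp_nat_mul, ← exp_add]
    congr 1
    unfold Gk
    ring
  rw [h1]
  have h2 : exp (-10) * exp (-4) ^ k ≤ 1 / 20000 * (1 / 32) ^ k := by
    apply mul_le_mul h10 _ (by positivity) (by norm_num)
    exact pow_le_pow_left₀ (exp_pos _).le h4 k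
  calc (16 : ℝ) ^ k * (exp (-10) * exp (-4) ^ k) ≤ 16 ^ k * (1 / 20000 * (1 / 32) ^ k) :=
        mul_le_mul_of_nonneg_left h2 (by positivity)
    _ = 1 / 20000 * (16 * (1 / 32)) ^ k := by rw [mul_pow]; ring
    _ = 1 / 10000 * (1 / 2) ^ (k + 1) := by
        rw [pow_succ]; norm_num; ring

end basic

/-- Cutoffs and their energies. -/
structure Pr (t h : ℝ) where
  ht : 1 ≤ t
  hh : 30 ≤ h
  θ : ℕ → ℝ
  ψ : ℕ → ℝ
  θ0 : ∀ k, 0 < θ k
  θ1 : ∀ k, θ k ≤ 1
  anti : Antitone θ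
  ψe : ∀ k, ψ k = min 1 (qk t h k)
  one : ∀ k, 1 ≤ qk t h k → θ k = 1
  one' : ∀ k, θ k = 1 → ψ k = 1
  sq : ∀ k k', k ≤ k' → θ k' ^ 2 * ψ k ≤ θ k ^ 2 * ψ k'

namespace Pr

variable {t h : ℝ} (R : Pr t h)

/-- Weights. -/
noncomputable def w (k : ℕ) : ℝ := h ^ 2 * R.ψ k / ek t k

/-- Coupling parameters. -/
noncomputable def Y (k : ℕ) : ℝ := max 1 (R.w k)

/-- Ratio of squares and energies. -/
noncomputable def κ (k : ℕ) : ℝ := R.θ k ^ 2 / R.ψ k

/-- Ratio of energies and entries. -/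
noncomputable def μ (k : ℕ) : ℝ := R.ψ k / R.θ k

/-- Reset budgets. -/
noncomputable def r (k : ℕ) : ℝ := 4 * Real.sqrt (R.Y k * (R.κ k * ek t k) * Gk k)

/-- Exponents. -/
noncomputable def l (k : ℕ) : ℝ := Real.sqrt (Gk k) / (2 * Real.sqrt (R.Y k * (R.κ k * ek t k)))

/-- Dropped masses. -/
noncomputable def d (k : ℕ) : ℝ := if 1 ≤ R.θ k then 0 else ek t k / R.μ k

theorem ψ_pos (k : ℕ) : 0 < R.ψ k := by
  rw [R.ψe]
  exact lt_min one_pos (qk_pos R.ht R.hh k)

theorem ψ_le_one (k : ℕ) : R.ψ k ≤ 1 := by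
  rw [R.ψe]; exact min_le_left _ _

theorem ψ_le (k : ℕ) : R.ψ k ≤ qk t h k := by
  rw [R.ψe]; exact min_le_right _ _

theorem ψ_eq {k : ℕ} (hk : R.θ k < 1) : R.ψ k = qk t h k := by
  rw [R.ψe]
  apply min_eq_right
  by_contra hcon
  push Not at hcon
  have := R.one k hcon.le
  linarith

theorem ψ_mul_le (k : ℕ) : R.ψ k * (8 * h * Gk k) ≤ ek t k := by
  have h1 := R.ψ_le k
  have h2 := Gk_ge k
  have h3 := R.hh
  unfold qk at h1
  rwa [le_div_iff₀ (by positivity)] at h1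

theorem w_pos (k : ℕ) : 0 < R.w k := by
  have h1 := ek_pos R.ht k
  have h2 := R.ψ_pos k
  have h3 := R.hh
  unfold w
  positivity

theorem Y_ge (k : ℕ) : 1 ≤ R.Y k := le_max_left _ _

theorem w_le_Y (k : ℕ) : R.w k ≤ R.Y k := le_max_right _ _

theorem κ_pos (k : ℕ) : 0 < R.κ k := by
  have h1 := R.θ0 k
  have h2 := R.ψ_pos k
  unfold κ
  positivity

theorem μ_pos (k : ℕ) : 0 < R.μ k := by
  have h1 := R.θ0 k
  have h2 := R.ψ_pos k
  unfold μ
  positivity

theorem κψ (k : ℕ) : R.κ k * R.ψ k = R.θ k ^ 2 := by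
  have h2 := (R.ψ_pos k).ne'
  unfold κ
  field_simp

theorem ye_pos (k : ℕ) : 0 < R.Y k * (R.κ k * ek t k) :=
  mul_pos (by linarith [R.Y_ge k]) (mul_pos (R.κ_pos k) (ek_pos R.ht k))

theorem l_pos (k : ℕ) : 0 < R.l k := by
  have h1 := R.ye_pos k
  have h2 := Gk_ge k
  unfold l
  have h3 : 0 < Real.sqrt (Gk k) := Real.sqrt_pos.mpr (by linarith)
  have h4 : 0 < Real.sqrt (R.Y k * (R.κ k * ek t k)) := Real.sqrt_pos.mpr h1
  positivity

theorem l_sq (k : ℕ) : R.l k ^ 2 = Gk k / (4 * (R.Y k * (R.κ k * ek t k))) := by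
  have h1 := R.ye_pos k
  have h2 := Gk_ge k
  unfold l
  rw [div_pow, mul_pow, Real.sq_sqrt h1.le, Real.sq_sqrt (by linarith)]
  norm_num

theorem gap (k : ℕ) :
    4 * R.l k ^ 2 * (R.Y k * (R.κ k * (10 * t / 16 ^ k))) - R.l k * R.r k = -Gk k := by
  have h1 := R.ye_pos k
  have h2 := Gk_ge k
  have h3 : 0 < Real.sqrt (R.Y k * (R.κ k * ek t k)) := Real.sqrt_pos.mpr h1
  have e1 : (10 * t / 16 ^ k) = ek t k := rfl
  rw [e1]
  have e2 : R.r k = 4 * (Real.sqrt (R.Y k * (R.κ k * ek t k)) * Real.sqrt (Gk k)) := by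
    unfold r
    rw [Real.sqrt_mul h1.le]
  have e3 : Real.sqrt (Gk k) * Real.sqrt (Gk k) = Gk k := Real.mul_self_sqrt (by linarith)
  have e6 : R.l k * R.r k = 2 * Gk k := by
    rw [e2]
    unfold l
    have h5 : Real.sqrt (R.Y k * (R.κ k * ek t k)) ≠ 0 := h3.ne'
    generalize Real.sqrt (R.Y k * (R.κ k * ek t k)) = X at h5
    calc Real.sqrt (Gk k) / (2 * X) * (4 * (X * Real.sqrt (Gk k)))
        = 2 * (Real.sqrt (Gk k) * Real.sqrt (Gk k)) := by
          field_simp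
          ring
      _ = 2 * Gk k := by rw [e3]
  rw [R.l_sq, e6]
  have h5 : R.Y k * (R.κ k * ek t k) ≠ 0 := h1.ne'
  have e7 : ∀ X : ℝ, X ≠ 0 → 4 * (Gk k / (4 * X)) * X = Gk k := fun X hX => by field_simp
  rw [e7 _ h5]
  ring

theorem le_of_sq {x y : ℝ} (h : x ^ 2 ≤ y ^ 2) (hy : 0 ≤ y) : x ≤ y := by
  exact (le_abs_self x).trans (abs_le_of_sq_le_sq h hy)

theorem GY (k : ℕ) : Gk k * R.Y k * R.ψ k ≤ ek t k / 64 := by
  have h2 := Gk_ge k
  have h6 := ek_pos R.ht k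
  have hψ := R.ψ_pos k
  have hh := R.hh
  have h7 := R.ψ_mul_le k
  unfold Y
  rcases max_choice 1 (R.w k) with h8 | h8
  · rw [h8]
    nlinarith [mul_pos hψ (by linarith : 0 < Gk k)]
  · rw [h8]
    unfold w
    have h9 : Gk k * (h ^ 2 * R.ψ k / ek t k) * R.ψ k
        = (R.ψ k * (8 * h * Gk k)) ^ 2 / (64 * Gk k * ek t k) := by
      field_simp
      ring
    rw [h9, div_le_div_iff₀ (by positivity) (by norm_num)]
    have h10 : (R.ψ k * (8 * h * Gk k)) ^ 2 ≤ ek t k ^ 2 :=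
      pow_le_pow_left₀ (by positivity) h7 2
    have h11 : ek t k ^ 2 * 64 ≤ ek t k * (64 * Gk k * ek t k) := by
      have : ek t k * (64 * Gk k * ek t k) = ek t k ^ 2 * 64 * Gk k := by ring
      rw [this]
      have h12 : 0 ≤ ek t k ^ 2 * 64 := by positivity
      nlinarith
    linarith [mul_le_mul_of_nonneg_right h10 (by norm_num : (0 : ℝ) ≤ 64)]

theorem lam_small (k : ℕ) : R.l k * R.Y k * min 1 (R.θ k) ≤ 1 / 16 := by
  have h1 := R.ye_pos k
  have h2 := Gk_ge k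
  have h4 := R.θ0 k
  have h5 := R.Y_ge k
  have h6 := ek_pos R.ht k
  have hκ := R.κ_pos k
  have hψ := R.ψ_pos k
  have hY0 : 0 < R.Y k := by linarith
  rw [min_eq_right (R.θ1 k)]
  have key := R.GY k
  have hsq : (R.l k * R.Y k * R.θ k) ^ 2 ≤ (1 / 16) ^ 2 := by
    calc (R.l k * R.Y k * R.θ k) ^ 2
        = R.l k ^ 2 * R.Y k ^ 2 * R.θ k ^ 2 := by ring
      _ = (Gk k * R.Y k * R.ψ k) / (4 * ek t k) := by
          rw [R.l_sq, ← R.κψ k]
          field_simp
      _ ≤ (ek t k / 64) / (4 * ek t k) := by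
          apply div_le_div_of_nonneg_right key (by positivity)
      _ = (1 / 16) ^ 2 := by
          field_simp
          norm_num
  exact le_of_sq hsq (by norm_num)

theorem d_nonneg (k : ℕ) : 0 ≤ R.d k := by
  have h1 := ek_pos R.ht k
  have h2 := R.μ_pos k
  unfold d
  split_ifs <;> positivity

theorem d_spec (k : ℕ) : 1 ≤ R.θ k ∨ 10 * t ≤ 16 ^ k * (R.d k * R.μ k) := by
  have h2 := R.μ_pos k
  by_cases h : 1 ≤ R.θ k
  · exact Or.inl h
  · right
    unfold d
    rw [if_neg h, div_mul_cancel₀ _ h2.ne']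
    unfold ek
    rw [mul_div_cancel₀]
    positivity

theorem r_nonneg (k : ℕ) : 0 ≤ R.r k := by unfold r; positivity

/-- Cost of a level with dropping. -/
theorem cost_lt (k : ℕ) (hk : R.θ k < 1) :
    4 * R.d k + R.r k ≤ 35 * h * (Gk k * R.θ k) := by
  have he := ek_pos R.ht k
  have hG := Gk_ge k
  have hθ := R.θ0 k
  have hh := R.hh
  have hψ := R.ψ_pos k
  have hψe := R.ψ_eq hk
  have hψ2 : R.ψ k * (8 * h * Gk k) = ek t k := by
    rw [hψe]; unfold qk; field_simp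
  have hd : R.d k = 8 * h * (Gk k * R.θ k) := by
    unfold d μ
    rw [if_neg (not_le.mpr hk), ← hψ2]
    field_simp
  have hr : R.r k ≤ 3 * h * (Gk k * R.θ k) := by
    have h1 : R.Y k * (R.κ k * ek t k) * Gk k ≤ (3 / 4 * h * (Gk k * R.θ k)) ^ 2 := by
      have hκe : R.κ k * ek t k = 8 * h * Gk k * R.θ k ^ 2 := by
        rw [← hψ2, ← R.κψ k]; ring
      rw [hκe]
      unfold Y
      rcases max_choice 1 (R.w k) with h8 | h8
      · rw [h8]
        have h9 : 0 < h * Gk k ^ 2 * R.θ k ^ 2 := by positivity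
        have h10 : (3 / 4 * h * (Gk k * R.θ k)) ^ 2 = 9 / 16 * h * (h * Gk k ^ 2 * R.θ k ^ 2) := by
          ring
        rw [h10]
        nlinarith
      · rw [h8]
        unfold w
        have h9 : h ^ 2 * R.ψ k / ek t k * (8 * h * Gk k * R.θ k ^ 2) * Gk k
            = h ^ 2 * Gk k * R.θ k ^ 2 := by
          rw [← hψ2]; field_simp
        rw [h9]
        have h10 : (3 / 4 * h * (Gk k * R.θ k)) ^ 2
            = (9 / 16 * Gk k) * (h ^ 2 * Gk k * R.θ k ^ 2) := by ring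
        rw [h10]
        have h11 : 0 < h ^ 2 * Gk k * R.θ k ^ 2 := by positivity
        nlinarith
    unfold r
    have h2 := Real.sqrt_le_sqrt h1
    rw [Real.sqrt_sq (by positivity)] at h2
    linarith
  rw [hd]
  linarith

/-- Cost of a level without dropping. -/
theorem cost_one (k : ℕ) (hk : R.θ k = 1) (hk2 : R.ψ k = 1) :
    4 * R.d k + R.r k ≤ 4 * xk t k + 4 * h * Real.sqrt (Gk k) := by
  have he := ek_pos R.ht k
  have hG := Gk_ge k
  have hh := R.hh
  have hκ : R.κ k = 1 := by unfold κ; rw [hk, hk2]; norm_num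
  have hd : R.d k = 0 := by unfold d; rw [if_pos hk.ge]
  rw [hd, mul_zero, zero_add]
  unfold r
  rw [hκ, one_mul]
  have h1 : R.Y k * ek t k * Gk k ≤ (xk t k + h * Real.sqrt (Gk k)) ^ 2 := by
    have hx2 : xk t k ^ 2 = ek t k * Gk k := by
      unfold xk; exact Real.sq_sqrt (by positivity)
    have hG2 : Real.sqrt (Gk k) ^ 2 = Gk k := Real.sq_sqrt (by linarith)
    have h2 : (xk t k + h * Real.sqrt (Gk k)) ^ 2
        = ek t k * Gk k + h ^ 2 * Gk k + 2 * (xk t k * (h * Real.sqrt (Gk k))) := by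
      rw [add_sq, hx2, mul_pow, hG2]; ring
    rw [h2]
    have h3 : 0 ≤ xk t k * (h * Real.sqrt (Gk k)) := by
      have := xk_nonneg (t := t) k
      positivity
    unfold Y
    rcases max_choice 1 (R.w k) with h8 | h8
    · rw [h8]
      have : 0 ≤ h ^ 2 * Gk k := by positivity
      linarith
    · rw [h8]
      unfold w
      rw [hk2]
      have h9 : h ^ 2 * 1 / ek t k * ek t k * Gk k = h ^ 2 * Gk k := by
        field_simp
      rw [h9]
      have : 0 ≤ ek t k * Gk k := by positivity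
      linarith
  have h2 := Real.sqrt_le_sqrt h1
  have h3 : 0 ≤ xk t k + h * Real.sqrt (Gk k) := by
    have := xk_nonneg (t := t) k
    positivity
  rw [Real.sqrt_sq h3] at h2
  linarith

theorem θ_succ (k : ℕ) (hk : R.θ k < 1) : R.θ (k + 1) ≤ R.θ k / 4 := by
  have h1 := R.sq k (k + 1) (Nat.le_succ k)
  have h2 := R.ψ_eq hk
  have h3 : R.ψ (k + 1) ≤ R.ψ k / 16 := by
    rw [h2]; exact (R.ψ_le (k + 1)).trans (qk_succ R.ht R.hh k)
  have hθ := R.θ0 k
  have hψ := R.ψ_pos k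
  have h4 : R.θ (k + 1) ^ 2 ≤ (R.θ k / 4) ^ 2 := by
    have h5 : R.ψ k * R.θ (k + 1) ^ 2 ≤ R.ψ k * (R.θ k / 4) ^ 2 := by
      have := mul_le_mul_of_nonneg_left h3 (sq_nonneg (R.θ k))
      linarith
    exact le_of_mul_le_mul_left h5 hψ
  exact le_of_sq h4 (by positivity)

/-- Sum of the costs from the first level with dropping on. -/
theorem tail (k1 : ℕ) (hk1 : R.θ k1 < 1) (K : ℕ) :
    ∑ k ∈ Finset.Ico k1 (k1 + K), (4 * R.d k + R.r k) ≤ 70 * h * (Gk k1 * R.θ k1) := by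
  have hh := R.hh
  have hlt : ∀ k, k1 ≤ k → R.θ k < 1 := fun k hk => (R.anti hk).trans_lt hk1
  have hstep : ∀ k, k1 ≤ k → Gk (k + 1) * R.θ (k + 1) ≤ Gk k * R.θ k / 2 := by
    intro k hk
    have h1 := R.θ_succ k (hlt k hk)
    have h2 := Gk_ge k
    have h3 := R.θ0 k
    rw [Gk_succ]
    calc (Gk k + 4) * R.θ (k + 1) ≤ (Gk k + 4) * (R.θ k / 4) :=
          mul_le_mul_of_nonneg_left h1 (by linarith)
      _ ≤ Gk k * R.θ k / 2 := by nlinarith
  have hsum : ∑ k ∈ Finset.Ico k1 (k1 + K), Gk k * R.θ k + 2 * (Gk (k1 + K) * R.θ (k1 + K))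
      ≤ 2 * (Gk k1 * R.θ k1) := by
    induction K with
    | zero => simp
    | succ K ih =>
      rw [← add_assoc, Finset.sum_Ico_succ_top (Nat.le_add_right _ _)]
      have := hstep (k1 + K) (Nat.le_add_right _ _)
      linarith
  have h0 : 0 ≤ Gk (k1 + K) * R.θ (k1 + K) := by
    have h2 := Gk_ge (k1 + K)
    have h3 := R.θ0 (k1 + K)
    positivity
  calc ∑ k ∈ Finset.Ico k1 (k1 + K), (4 * R.d k + R.r k)
      ≤ ∑ k ∈ Finset.Ico k1 (k1 + K), 35 * h * (Gk k * R.θ k) :=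
        Finset.sum_le_sum fun k hk => R.cost_lt k (hlt k (Finset.mem_Ico.mp hk).1)
    _ = 35 * h * ∑ k ∈ Finset.Ico k1 (k1 + K), Gk k * R.θ k := by rw [Finset.mul_sum]
    _ ≤ 35 * h * (2 * (Gk k1 * R.θ k1)) := by
        apply mul_le_mul_of_nonneg_left _ (by linarith)
        linarith
    _ = _ := by ring

theorem θ_sq_le (k : ℕ) : R.θ k ^ 2 * R.ψ 0 ≤ ek t k := by
  have ht := R.ht
  have hh := R.hh
  have h1 := R.sq 0 k (Nat.zero_le k)
  have h2 := R.ψ_mul_le k
  have hψ := R.ψ_pos k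
  have hG := Gk_ge k
  have h3 : R.θ 0 ^ 2 ≤ 1 := pow_le_one₀ (R.θ0 0).le (R.θ1 0)
  have h4 : R.θ 0 ^ 2 * R.ψ k ≤ R.ψ k := by
    have := mul_le_mul_of_nonneg_right h3 hψ.le
    linarith
  have h5 : 1 ≤ 8 * h * Gk k := by nlinarith
  have h6 : R.ψ k ≤ R.ψ k * (8 * h * Gk k) := by nlinarith
  linarith

theorem exists_lt (c : ℝ) (hc : 0 < c) : ∃ k, R.θ k < c := by
  have ht := R.ht
  have hψ := R.ψ_pos 0
  obtain ⟨n, hn⟩ := exists_pow_lt_of_lt_one (show 0 < c ^ 2 * R.ψ 0 / (10 * t) by positivity)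
    (by norm_num : (1 / 16 : ℝ) < 1)
  refine ⟨n, ?_⟩
  have h1 := R.θ_sq_le n
  have h2 : ek t n = 10 * t * (1 / 16) ^ n := by
    unfold ek
    rw [div_pow, one_pow]
    ring
  rw [h2] at h1
  rw [lt_div_iff₀ (by positivity)] at hn
  have h3 : R.θ n ^ 2 * R.ψ 0 < c ^ 2 * R.ψ 0 := by linarith
  have h4 : R.θ n ^ 2 < c ^ 2 := lt_of_mul_lt_mul_right h3 hψ.le
  exact lt_of_pow_lt_pow_left₀ 2 hc.le h4

/-- Total cost: second form. -/
theorem total (K : ℕ) : ∑ k ∈ range K, (4 * R.d k + R.r k)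
    ≤ 80 * Real.sqrt t + 753 * h * (1 + Real.log t) ^ (3 / 2 : ℝ) := by
  classical
  have ht := R.ht
  have hh := R.hh
  have hex := R.exists_lt 1 one_pos
  set k1 := Nat.find hex with hk1
  have hk1s : R.θ k1 < 1 := Nat.find_spec hex
  have hk1m : ∀ k, k < k1 → R.θ k = 1 := fun k hk => by
    have := Nat.find_min hex hk
    push Not at this
    exact le_antisymm (R.θ1 k) this
  -- bound on k1
  have h16 : (16 : ℝ) ^ k1 ≤ t := by
    rcases Nat.eq_zero_or_pos k1 with h0 | h0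
    · rw [h0, pow_zero]; exact ht
    · obtain ⟨m, hm⟩ := Nat.exists_eq_succ_of_ne_zero h0.ne'
      have h1 := hk1m m (by omega)
      have h2 := R.one' m h1
      have h4 : 1 ≤ qk t h m := by rw [← h2]; exact R.ψ_le m
      unfold qk at h4
      have hG := Gk_ge m
      rw [le_div_iff₀ (by positivity)] at h4
      unfold ek at h4
      rw [one_mul, le_div_iff₀ (by positivity)] at h4
      rw [hm, pow_succ]
      have h5 : (2400 : ℝ) * 16 ^ m ≤ 8 * h * Gk m * 16 ^ m := by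
        apply mul_le_mul_of_nonneg_right _ (by positivity)
        nlinarith
      have h6 : (0 : ℝ) < 16 ^ m := by positivity
      linarith
  have hlog0 : 0 ≤ Real.log t := Real.log_nonneg ht
  have hk1log : (k1 : ℝ) ≤ Real.log t := by
    have h1 := Real.log_le_log (by positivity) h16
    rw [Real.log_pow] at h1
    have h2 : (1 : ℝ) ≤ Real.log 16 := by
      rw [Real.le_log_iff_exp_le (by norm_num)]
      have := Real.exp_one_lt_d9
      linarith
    have h3 : (0 : ℝ) ≤ k1 := Nat.cast_nonneg _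
    nlinarith
  set ℓ : ℝ := 1 + Real.log t with hℓ
  have hℓ1 : 1 ≤ ℓ := by linarith
  have hG1 : Gk k1 ≤ 10 * ℓ := by
    unfold Gk; linarith
  have hG0 := Gk_ge k1
  -- split
  have hsplit : ∑ k ∈ range K, (4 * R.d k + R.r k)
      ≤ ∑ k ∈ range k1, (4 * R.d k + R.r k)
        + ∑ k ∈ Finset.Ico k1 (k1 + K), (4 * R.d k + R.r k) := by
    rw [Finset.sum_range_add_sum_Ico _ (Nat.le_add_right k1 K)]
    refine Finset.sum_le_sum_of_subset_of_nonneg (Finset.range_mono (Nat.le_add_left K k1))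
      fun k _ _ => ?_
    have h1 := R.d_nonneg k
    have h2 := R.r_nonneg k
    positivity
  have hA : ∑ k ∈ range k1, (4 * R.d k + R.r k)
      ≤ 80 * Real.sqrt t + 4 * h * (k1 * Real.sqrt (Gk k1)) := by
    have h1 : ∑ k ∈ range k1, (4 * R.d k + R.r k)
        ≤ ∑ k ∈ range k1, (4 * xk t k + 4 * h * Real.sqrt (Gk k1)) := by
      refine Finset.sum_le_sum fun k hk => ?_
      rw [Finset.mem_range] at hk
      refine (R.cost_one k (hk1m k hk) (R.one' k (hk1m k hk))).trans ?_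
      have h2 := Real.sqrt_le_sqrt (Gk_mono hk.le)
      have h3 : 4 * h * Real.sqrt (Gk k) ≤ 4 * h * Real.sqrt (Gk k1) :=
        mul_le_mul_of_nonneg_left h2 (by linarith)
      linarith
    have h1' : ∑ k ∈ range k1, (4 * xk t k + 4 * h * Real.sqrt (Gk k1))
        = 4 * ∑ k ∈ range k1, xk t k + (k1 : ℝ) * (4 * h * Real.sqrt (Gk k1)) := by
      rw [Finset.sum_add_distrib, Finset.sum_const, Finset.card_range, nsmul_eq_mul,
        ← Finset.mul_sum]
    rw [h1'] at h1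
    have h2 := xk_sum ht 0 k1 (Nat.zero_le _)
    rw [xk_zero, ← Finset.range_eq_Ico] at h2
    have h3 := xk_nonneg (t := t) k1
    have h4 : 4 * ∑ k ∈ range k1, xk t k ≤ 80 * Real.sqrt t := by linarith
    calc _ ≤ 4 * ∑ k ∈ range k1, xk t k + (k1 : ℝ) * (4 * h * Real.sqrt (Gk k1)) := h1
      _ ≤ 80 * Real.sqrt t + 4 * h * (k1 * Real.sqrt (Gk k1)) := by
          have : (k1 : ℝ) * (4 * h * Real.sqrt (Gk k1)) = 4 * h * (k1 * Real.sqrt (Gk k1)) := by
            ring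
          linarith
  have hB : ∑ k ∈ Finset.Ico k1 (k1 + K), (4 * R.d k + R.r k) ≤ 70 * h * Gk k1 := by
    refine (R.tail k1 hk1s K).trans ?_
    have h1 : Gk k1 * R.θ k1 ≤ Gk k1 := by
      have := mul_le_mul_of_nonneg_left hk1s.le (by linarith : 0 ≤ Gk k1)
      linarith
    exact mul_le_mul_of_nonneg_left h1 (by linarith)
  -- the powers
  have hpow : (1 + Real.log t) ^ (3 / 2 : ℝ) = ℓ * Real.sqrt ℓ := by
    rw [← hℓ, Real.sqrt_eq_rpow, ← Real.rpow_one_add' (by linarith) (by norm_num)]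
    norm_num
  have hsℓ : 1 ≤ Real.sqrt ℓ := Real.one_le_sqrt.mpr hℓ1
  have hC : (k1 : ℝ) * Real.sqrt (Gk k1) ≤ 13 / 4 * (ℓ * Real.sqrt ℓ) := by
    have h1 : Real.sqrt (Gk k1) ≤ 13 / 4 * Real.sqrt ℓ := by
      have h2 : Gk k1 ≤ (13 / 4 * Real.sqrt ℓ) ^ 2 := by
        rw [mul_pow, Real.sq_sqrt (by linarith)]
        nlinarith
      have h3 := Real.sqrt_le_sqrt h2
      rwa [Real.sqrt_sq (by positivity)] at h3
    have h2 : (k1 : ℝ) ≤ ℓ := by linarith
    calc (k1 : ℝ) * Real.sqrt (Gk k1) ≤ ℓ * (13 / 4 * Real.sqrt ℓ) :=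
          mul_le_mul h2 h1 (Real.sqrt_nonneg _) (by linarith)
      _ = _ := by ring
  have hD : Gk k1 ≤ 10 * (ℓ * Real.sqrt ℓ) := by
    have : ℓ * 1 ≤ ℓ * Real.sqrt ℓ := mul_le_mul_of_nonneg_left hsℓ (by linarith)
    linarith
  rw [hpow]
  have hE : 4 * h * (k1 * Real.sqrt (Gk k1)) ≤ 4 * h * (13 / 4 * (ℓ * Real.sqrt ℓ)) :=
    mul_le_mul_of_nonneg_left hC (by linarith)
  have hF : 70 * h * Gk k1 ≤ 70 * h * (10 * (ℓ * Real.sqrt ℓ)) :=
    mul_le_mul_of_nonneg_left hD (by linarith)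
  have hG : 0 ≤ h * (ℓ * Real.sqrt ℓ) := by positivity
  linarith

/-- Total cost: first form. -/
theorem total' (K : ℕ) (z : ℝ) (hz0 : 0 ≤ z)
    (hz : ∀ k, R.θ k ^ 2 * t ≤ z ^ 2 * (8 * h * R.ψ k)) :
    ∑ k ∈ range K, (4 * R.d k + R.r k) ≤ 800 * h * z := by
  classical
  have ht := R.ht
  have hh := R.hh
  have hex := R.exists_lt 1 one_pos
  set k1 := Nat.find hex with hk1
  have hk1s : R.θ k1 < 1 := Nat.find_spec hex
  have hk1m : ∀ k, k < k1 → R.θ k = 1 := fun k hk => by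
    have := Nat.find_min hex hk
    push Not at this
    exact le_antisymm (R.θ1 k) this
  have hG0 := Gk_ge k1
  have hsplit : ∑ k ∈ range K, (4 * R.d k + R.r k)
      ≤ ∑ k ∈ range k1, (4 * R.d k + R.r k)
        + ∑ k ∈ Finset.Ico k1 (k1 + K), (4 * R.d k + R.r k) := by
    rw [Finset.sum_range_add_sum_Ico _ (Nat.le_add_right k1 K)]
    refine Finset.sum_le_sum_of_subset_of_nonneg (Finset.range_mono (Nat.le_add_left K k1))
      fun k _ _ => ?_
    have h1 := R.d_nonneg k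
    have h2 := R.r_nonneg k
    positivity
  have hsh0 : 0 ≤ Real.sqrt h := Real.sqrt_nonneg _
  have hsh2 : Real.sqrt h ^ 2 = h := Real.sq_sqrt (by linarith)
  have hsh5 : 5 ≤ Real.sqrt h := by apply Real.le_sqrt_of_sq_le; linarith
  have hA : ∑ k ∈ range k1, (4 * R.d k + R.r k) ≤ 80 * h * z := by
    rcases Nat.eq_zero_or_pos k1 with h0 | h0
    · rw [h0]
      simp only [range_zero, sum_empty]
      positivity
    have hz3 := hz 0
    rw [hk1m 0 h0, R.one' 0 (hk1m 0 h0)] at hz3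
    -- each level
    have h1 : ∀ k ∈ range k1, 4 * R.d k + R.r k ≤ 13 / 10 * Real.sqrt h * xk t k := by
      intro k hk
      rw [Finset.mem_range] at hk
      have hθ := hk1m k hk
      have hψ := R.one' k hθ
      refine (R.cost_one k hθ hψ).trans ?_
      have hG := Gk_ge k
      have he := ek_pos ht k
      have hx := xk_nonneg (t := t) k
      have h2 := R.ψ_mul_le k
      rw [hψ, one_mul] at h2
      have hx2 : xk t k ^ 2 = ek t k * Gk k := by
        unfold xk; exact Real.sq_sqrt (by positivity)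
      have hG2 : Real.sqrt (Gk k) ^ 2 = Gk k := Real.sq_sqrt (by linarith)
      have h3 : h * Real.sqrt (Gk k) ≤ 1 / 8 * Real.sqrt h * xk t k := by
        have h4 : (h * Real.sqrt (Gk k)) ^ 2 ≤ (1 / 8 * Real.sqrt h * xk t k) ^ 2 := by
          have e1 : (h * Real.sqrt (Gk k)) ^ 2 = h / 8 * (8 * h * Gk k) := by
            rw [mul_pow, hG2]; ring
          have e2 : (1 / 8 * Real.sqrt h * xk t k) ^ 2 = h / 8 * (ek t k * (Gk k / 8)) := by
            rw [mul_pow, mul_pow, hsh2, hx2]; ring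
          rw [e1, e2]
          apply mul_le_mul_of_nonneg_left _ (by positivity)
          nlinarith
        exact le_of_sq h4 (by positivity)
      nlinarith
    have h2 := xk_sum ht 0 k1 (Nat.zero_le _)
    rw [xk_zero, ← Finset.range_eq_Ico] at h2
    have h3 := xk_nonneg (t := t) k1
    have h4 : ∑ k ∈ range k1, xk t k ≤ 20 * Real.sqrt t := by linarith
    have h5 : Real.sqrt t ≤ 29 / 10 * Real.sqrt h * z := by
      have e1 : Real.sqrt t ^ 2 ≤ (29 / 10 * Real.sqrt h * z) ^ 2 := by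
        rw [mul_pow, mul_pow, hsh2, Real.sq_sqrt (by linarith)]
        have : 0 ≤ z ^ 2 * h := by positivity
        linarith
      exact le_of_sq e1 (by positivity)
    calc ∑ k ∈ range k1, (4 * R.d k + R.r k)
        ≤ ∑ k ∈ range k1, 13 / 10 * Real.sqrt h * xk t k := Finset.sum_le_sum h1
      _ = 13 / 10 * Real.sqrt h * ∑ k ∈ range k1, xk t k := by rw [Finset.mul_sum]
      _ ≤ 13 / 10 * Real.sqrt h * (20 * (29 / 10 * Real.sqrt h * z)) := by
          apply mul_le_mul_of_nonneg_left _ (by positivity)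
          linarith
      _ = 13 / 10 * 20 * (29 / 10) * Real.sqrt h ^ 2 * z := by ring
      _ ≤ 80 * h * z := by
          rw [hsh2]
          have : 0 ≤ h * z := by positivity
          nlinarith
  have hB : ∑ k ∈ Finset.Ico k1 (k1 + K), (4 * R.d k + R.r k) ≤ 700 * h * z := by
    refine (R.tail k1 hk1s K).trans ?_
    have hθ := R.θ0 k1
    have h1 : Gk k1 * R.θ k1 ≤ 10 * z := by
      have h2 := hz k1
      have h3 := R.ψ_mul_le k1
      have hek : ek t k1 * 16 ^ k1 = 10 * t := by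
        unfold ek; field_simp
      have h4 : Gk k1 ≤ 10 * 16 ^ k1 := by
        unfold Gk
        have h5 : (k1 : ℝ) + 1 ≤ 16 ^ k1 := by
          have h6 : k1 + 1 ≤ 16 ^ k1 := Nat.lt_pow_self (by norm_num)
          exact_mod_cast h6
        have h7 : (0 : ℝ) ≤ k1 := Nat.cast_nonneg _
        linarith
      have h5 : (Gk k1 * R.θ k1) ^ 2 ≤ (10 * z) ^ 2 := by
        have h6 : Gk k1 * R.θ k1 ^ 2 * t ≤ z ^ 2 * ek t k1 := by
          calc Gk k1 * R.θ k1 ^ 2 * t = Gk k1 * (R.θ k1 ^ 2 * t) := by ring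
            _ ≤ Gk k1 * (z ^ 2 * (8 * h * R.ψ k1)) :=
              mul_le_mul_of_nonneg_left h2 (by linarith)
            _ = z ^ 2 * (R.ψ k1 * (8 * h * Gk k1)) := by ring
            _ ≤ z ^ 2 * ek t k1 := mul_le_mul_of_nonneg_left h3 (sq_nonneg z)
        have h7 : t * (16 ^ k1 * (Gk k1 * R.θ k1 ^ 2)) ≤ t * (10 * z ^ 2) := by
          calc t * (16 ^ k1 * (Gk k1 * R.θ k1 ^ 2)) = 16 ^ k1 * (Gk k1 * R.θ k1 ^ 2 * t) := by ring
            _ ≤ 16 ^ k1 * (z ^ 2 * ek t k1) := mul_le_mul_of_nonneg_left h6 (by positivity)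
            _ = z ^ 2 * (ek t k1 * 16 ^ k1) := by ring
            _ = t * (10 * z ^ 2) := by rw [hek]; ring
        have h8 := le_of_mul_le_mul_left h7 (by linarith)
        calc (Gk k1 * R.θ k1) ^ 2 = Gk k1 * (Gk k1 * R.θ k1 ^ 2) := by ring
          _ ≤ (10 * 16 ^ k1) * (Gk k1 * R.θ k1 ^ 2) :=
            mul_le_mul_of_nonneg_right h4 (by positivity)
          _ = 10 * (16 ^ k1 * (Gk k1 * R.θ k1 ^ 2)) := by ring
          _ ≤ 10 * (10 * z ^ 2) := by linarith
          _ = (10 * z) ^ 2 := by ring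
      exact le_of_sq h5 (by positivity)
    calc 70 * h * (Gk k1 * R.θ k1) ≤ 70 * h * (10 * z) :=
          mul_le_mul_of_nonneg_left h1 (by linarith)
      _ = _ := by ring
  have hhz : 0 ≤ h * z := by positivity
  linarith

end Pr

end H18OZ
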